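import Pool.Agent.Y950.NK.Tot

/-!
# The count of the `n < N` for which the lowest ternary digits of `u p ^ n` lie in a set of two digits
-/

set_option autoImplicit false

namespace Pool.Agent.Y950.NK

open Finset Pool.Agent.W288.NK

theorem main3 (p : ℕ) (hp : 2 ≤ p) (hpq : ¬ 3 ∣ p) {D : Finset ℕ} (hD : D ⊆ range 3)
    (hD2 : D.card = 2) :
    ∃ C : ℝ, 0 < C ∧ ∀ u, Nat.Coprime u 3 → ∀ N : ℕ, 1 ≤ N →
      ((((Finset.range N).filter (fun n =>
        good 3 D (2 * ⌈Real.log N / Real.log (27 / 4)⌉₊) (u * p ^ n))).card : ℕ) : ℝ)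
        ≤ C * (N : ℝ) ^ (Real.log 3 / Real.log (27 / 4)) := by
  obtain ⟨f, hf⟩ := count_N3 p hp hpq hD hD2
  have hl0 : 0 < Real.log (27 / 4) := Real.log_pos (by norm_num)
  have h30 : 0 < Real.log 3 := Real.log_pos (by norm_num)
  refine ⟨3 * (27 * (3 ^ f + 1) + 1950) + (27 / 4) ^ f, by positivity, ?_⟩
  intro u hu N hN
  have hNr : (1 : ℝ) ≤ N := by exact_mod_cast hN
  have hN0 : (0 : ℝ) < N := by linarith
  have hlogN : 0 ≤ Real.log N := Real.log_nonneg hNr
  have hE0 : 0 ≤ Real.log 3 / Real.log (27 / 4) := by positivity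
  have hNE : 1 ≤ (N : ℝ) ^ (Real.log 3 / Real.log (27 / 4)) := Real.one_le_rpow hNr hE0
  obtain ⟨k, hk⟩ : ∃ k, k = ⌈Real.log N / Real.log (27 / 4)⌉₊ := ⟨_, rfl⟩
  rw [← hk, two_mul]
  have hk1 : Real.log N / Real.log (27 / 4) ≤ k := by rw [hk]; exact Nat.le_ceil _
  have hk2 : (k : ℝ) < Real.log N / Real.log (27 / 4) + 1 := by
    rw [hk]; exact Nat.ceil_lt_add_one (by positivity)
  have hNk : (N : ℝ) ≤ (27 / 4) ^ k := by
    rw [div_le_iff₀ hl0] at hk1
    rw [← Real.log_le_log_iff hN0 (by positivity), Real.log_pow]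
    exact hk1
  have h3k : (3 : ℝ) ^ k ≤ 3 * (N : ℝ) ^ (Real.log 3 / Real.log (27 / 4)) := by
    have e1 : (3 : ℝ) ^ k = Real.exp (k * Real.log 3) := by
      rw [Real.exp_nat_mul, Real.exp_log (by norm_num)]
    have e2 : 3 * (N : ℝ) ^ (Real.log 3 / Real.log (27 / 4)) =
        Real.exp (Real.log 3 + Real.log N * (Real.log 3 / Real.log (27 / 4))) := by
      rw [Real.exp_add, Real.exp_log (by norm_num), Real.rpow_def_of_pos hN0]
    rw [e1, e2]
    apply Real.exp_le_exp.2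
    have := mul_le_mul_of_nonneg_right hk2.le h30.le
    have e3 : (Real.log N / Real.log (27 / 4) + 1) * Real.log 3 =
        Real.log 3 + Real.log N * (Real.log 3 / Real.log (27 / 4)) := by ring
    linarith
  rcases lt_or_ge k f with hkf | hkf
  · have h1 : ((((Finset.range N).filter (fun n => good 3 D (k + k) (u * p ^ n))).card : ℕ) : ℝ)
        ≤ N := by
      have := Finset.card_filter_le (Finset.range N) (fun n => good 3 D (k + k) (u * p ^ n))
      rw [Finset.card_range] at this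
      exact_mod_cast this
    have h2 : (27 / 4 : ℝ) ^ k ≤ (27 / 4) ^ f := pow_le_pow_right₀ (by norm_num) hkf.le
    calc _ ≤ (N : ℝ) := h1
      _ ≤ (27 / 4) ^ f * 1 := by linarith
      _ ≤ (3 * (27 * (3 ^ f + 1) + 1950) + (27 / 4) ^ f) *
            (N : ℝ) ^ (Real.log 3 / Real.log (27 / 4)) := by
          apply mul_le_mul _ hNE (by norm_num) (by positivity)
          have : (0 : ℝ) ≤ 3 * (27 * (3 ^ f + 1) + 1950) := by positivity
          linarith
  · obtain ⟨h0, hh0, ha, hb, hc⟩ := exists_h0 k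
    have h1 := hf u hu k hkf N h0 hh0 hb hc
    obtain ⟨ρ, hρ⟩ : ∃ ρ : ℝ, ρ = ((N : ℝ) * 3 ^ f / 3 ^ k + 1) / 3 ^ k := ⟨_, rfl⟩
    rw [← hρ] at h1
    have h4k : (0 : ℝ) < 4 ^ k := by positivity
    have h3k0 : (0 : ℝ) < 3 ^ k := by positivity
    have hρ4 : ρ * 4 ^ k ≤ (3 ^ f + 1) * 3 ^ k := by
      have e1 : ρ * 4 ^ k = 3 ^ f * (N * 4 ^ k / (3 ^ k * 3 ^ k)) + 4 ^ k / 3 ^ k := by
        rw [hρ]
        field_simp
      rw [e1, add_mul, one_mul]
      apply add_le_add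
      · apply mul_le_mul_of_nonneg_left _ (by positivity)
        rw [div_le_iff₀ (by positivity)]
        calc (N : ℝ) * 4 ^ k ≤ (27 / 4) ^ k * 4 ^ k := by gcongr
          _ = 3 ^ k * (3 ^ k * 3 ^ k) := by
              rw [← mul_pow, ← mul_pow, ← mul_pow]
              norm_num
      · rw [div_le_iff₀ h3k0, ← mul_pow]
        exact pow_le_pow_left₀ (by norm_num) (by norm_num) _
    have hρ0 : 0 ≤ ρ := by rw [hρ]; positivity
    have hρh : ρ * 3 ^ h0 ≤ 3 ^ f + 1 := by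
      have h5 : ρ * 3 ^ h0 * (3 ^ k * 4 ^ k) ≤ (3 ^ f + 1) * (3 ^ k * 4 ^ k) := by
        calc ρ * 3 ^ h0 * (3 ^ k * 4 ^ k) = (ρ * 4 ^ k) * (3 ^ h0 * 3 ^ k) := by ring
          _ ≤ ((3 ^ f + 1) * 3 ^ k) * 4 ^ k :=
              mul_le_mul hρ4 ha (by positivity) (by positivity)
          _ = _ := by ring
      exact le_of_mul_le_mul_right h5 (by positivity)
    have h6 : ((((Finset.range N).filter (fun n => good 3 D (k + k) (u * p ^ n))).card : ℕ) : ℝ)
        ≤ (27 * (3 ^ f + 1) + 1950) * 3 ^ k := by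
      refine h1.trans ?_
      have e1 : 26 * ρ * 3 ^ h0 = 26 * (ρ * 3 ^ h0) := by ring
      rw [e1]
      have h7 : (3 : ℝ) ^ k * (26 * (ρ * 3 ^ h0) + 1950) ≤
          3 ^ k * (26 * (3 ^ f + 1) + 1950) := by
        apply mul_le_mul_of_nonneg_left _ h3k0.le
        linarith
      calc ρ * 4 ^ k + 3 ^ k * (26 * (ρ * 3 ^ h0) + 1950)
          ≤ (3 ^ f + 1) * 3 ^ k + 3 ^ k * (26 * (3 ^ f + 1) + 1950) := add_le_add hρ4 h7
        _ = _ := by ring
    calc _ ≤ (27 * (3 ^ f + 1) + 1950) * (3 : ℝ) ^ k := h6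
      _ ≤ (27 * (3 ^ f + 1) + 1950) * (3 * (N : ℝ) ^ (Real.log 3 / Real.log (27 / 4))) :=
          mul_le_mul_of_nonneg_left h3k (by positivity)
      _ = 3 * (27 * (3 ^ f + 1) + 1950) * (N : ℝ) ^ (Real.log 3 / Real.log (27 / 4)) := by ring
      _ ≤ _ := by
          apply mul_le_mul_of_nonneg_right _ (by positivity)
          have : (0 : ℝ) ≤ (27 / 4) ^ f := by positivity
          linarith

end Pool.Agent.Y950.NK
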