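import Pool.Agent.Y950.NK.Energy2
import Pool.Agent.W288.NK.Count2

/-!
# The energy bound in the range that is needed and the resulting bound for the exponential sums
-/

set_option autoImplicit false

namespace Pool.Agent.Y950.NK

open Finset Pool.Agent.W288.NK

theorem exists_h0 (k : ℕ) : ∃ h0 : ℕ, h0 ≤ k ∧ (3 : ℝ) ^ h0 * 3 ^ k ≤ 4 ^ k ∧
    (4 : ℝ) ^ k < 3 ^ (h0 + 1) * 3 ^ k ∧ k < 4 * (h0 + 1) := by
  obtain ⟨m, hm⟩ : ∃ m, m = 4 ^ k / 3 ^ k := ⟨_, rfl⟩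
  have h3 : 0 < 3 ^ k := by positivity
  have h34 : 3 ^ k ≤ 4 ^ k := Nat.pow_le_pow_left (by norm_num) k
  have hm0 : m ≠ 0 := by
    rw [hm]
    exact (Nat.div_pos h34 h3).ne'
  have a1 : 3 ^ (Nat.log 3 m) * 3 ^ k ≤ 4 ^ k := by
    calc 3 ^ (Nat.log 3 m) * 3 ^ k ≤ m * 3 ^ k := Nat.mul_le_mul_right _ (Nat.pow_log_le_self 3 hm0)
      _ ≤ 4 ^ k := by
        rw [hm]
        exact Nat.div_mul_le_self _ _
  have a2 : 4 ^ k < 3 ^ (Nat.log 3 m + 1) * 3 ^ k := by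
    have h1 : m < 3 ^ (Nat.log 3 m + 1) := Nat.lt_pow_succ_log_self (by norm_num) m
    calc 4 ^ k < (m + 1) * 3 ^ k := by
          rw [hm, mul_comm]
          exact Nat.lt_mul_div_succ _ h3
      _ ≤ 3 ^ (Nat.log 3 m + 1) * 3 ^ k := Nat.mul_le_mul_right _ h1
  have a3 : (3 : ℝ) ^ (Nat.log 3 m) * 3 ^ k ≤ 4 ^ k := by exact_mod_cast a1
  have a4 : (4 : ℝ) ^ k < 3 ^ (Nat.log 3 m + 1) * 3 ^ k := by exact_mod_cast a2
  refine ⟨Nat.log 3 m, ?_, a3, a4, ?_⟩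
  · by_contra hc
    push Not at hc
    have h1 : 3 ^ (k + 1) ≤ 3 ^ (Nat.log 3 m) := Nat.pow_le_pow_right (by norm_num) hc
    have h2 : 3 ^ (k + 1) * 3 ^ k ≤ 4 ^ k := (Nat.mul_le_mul_right _ h1).trans a1
    have h4 : 4 ^ k ≤ 3 ^ k * 3 ^ k := by
      rw [← mul_pow]
      exact Nat.pow_le_pow_left (by norm_num) k
    have h5 : 3 ^ (k + 1) * 3 ^ k ≤ 3 ^ k * 3 ^ k := h2.trans h4
    have h6 := Nat.le_of_mul_le_mul_right h5 h3
    rw [pow_succ] at h6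
    omega
  · by_contra hc
    push Not at hc
    have h1 : (3 : ℝ) ^ (Nat.log 3 m + 1) ≤ (4 / 3) ^ k := by
      calc (3 : ℝ) ^ (Nat.log 3 m + 1) ≤ ((4 / 3) ^ 4) ^ (Nat.log 3 m + 1) := by
            refine pow_le_pow_left₀ (by norm_num) (by norm_num) _
        _ = (4 / 3) ^ (4 * (Nat.log 3 m + 1)) := by rw [← pow_mul]
        _ ≤ (4 / 3) ^ k := pow_le_pow_right₀ (by norm_num) hc
    rw [div_pow, le_div_iff₀ (by positivity)] at h1
    linarith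

theorem E0_bd {D : Finset ℕ} (hD : D ⊆ range 3) (hD2 : D.card = 2) {k h0 d : ℕ}
    (hh : h0 + d ≤ k) (h2 : (4 : ℝ) ^ k < 3 ^ (h0 + 1) * 3 ^ k) (h4 : k < 4 * (h0 + 1)) :
    ((E0 D k (h0 + d)).card : ℝ) * 6 ^ k ≤ 160 * 9 ^ k * 9 ^ (h0 + d) * (24 / 25) ^ d := by
  obtain ⟨B, hB⟩ : ∃ B : ℝ, B = 9 ^ k * 9 ^ (h0 + d) * (24 / 25) ^ d := ⟨_, rfl⟩
  have hB0 : 0 ≤ B := by rw [hB]; positivity
  have t1 : (3 : ℝ) * 3 ^ (h0 + d) * 2 ^ k * 6 ^ k ≤ 9 * B := by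
    have e1 : (3 : ℝ) * 3 ^ (h0 + d) * 2 ^ k * 6 ^ k = 3 * 3 ^ (h0 + d) * 3 ^ k * 4 ^ k := by
      have : (2 : ℝ) ^ k * 6 ^ k = 3 ^ k * 4 ^ k := by
        rw [← mul_pow, ← mul_pow]; norm_num
      calc (3 : ℝ) * 3 ^ (h0 + d) * 2 ^ k * 6 ^ k = 3 * 3 ^ (h0 + d) * (2 ^ k * 6 ^ k) := by ring
        _ = _ := by rw [this]; ring
    rw [e1]
    calc (3 : ℝ) * 3 ^ (h0 + d) * 3 ^ k * 4 ^ k
        ≤ 3 * 3 ^ (h0 + d) * 3 ^ k * (3 ^ (h0 + 1) * 3 ^ k) :=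
          mul_le_mul_of_nonneg_left h2.le (by positivity)
      _ = 9 * ((3 ^ k * 3 ^ k) * (3 ^ h0 * 3 ^ h0) * 3 ^ d) := by
          rw [pow_add 3 h0 d, pow_succ 3 h0]; ring
      _ = 9 * (9 ^ k * 9 ^ h0 * 3 ^ d) := by
          rw [← mul_pow, ← mul_pow]; norm_num
      _ ≤ 9 * (9 ^ k * 9 ^ h0 * (9 * (24 / 25)) ^ d) := by
          have : (3 : ℝ) ^ d ≤ (9 * (24 / 25)) ^ d :=
            pow_le_pow_left₀ (by norm_num) (by norm_num) _
          have h9 : (0 : ℝ) ≤ 9 ^ k * 9 ^ h0 := by positivity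
          nlinarith
      _ = 9 * B := by rw [hB, mul_pow, pow_add]; ring
  have e96 : (6 : ℝ) ^ k * (81 / 50) ^ k = 9 ^ k * (27 / 25) ^ k := by
    rw [← mul_pow, ← mul_pow]; norm_num
  by_cases c : 2 * (h0 + d) ≤ k
  · have hE := E0_one hD hD2 (h0 + d) k c
    have t2 : (104 : ℝ) * 16 ^ (h0 + d) * (81 / 50) ^ (k - 2 * (h0 + d)) * 6 ^ k ≤ 142 * B := by
      have hp : (0 : ℝ) < (81 / 50) ^ (2 * (h0 + d)) := by positivity
      rw [← mul_le_mul_iff_left₀ hp]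
      have e2 : (81 / 50 : ℝ) ^ (k - 2 * (h0 + d)) * (81 / 50) ^ (2 * (h0 + d)) =
          (81 / 50) ^ k := by rw [← pow_add]; congr 1; omega
      have e3 : (104 : ℝ) * 16 ^ (h0 + d) * (81 / 50) ^ (k - 2 * (h0 + d)) * 6 ^ k *
          (81 / 50) ^ (2 * (h0 + d)) = 104 * 16 ^ (h0 + d) * (9 ^ k * (27 / 25) ^ k) := by
        rw [← e96, ← e2]; ring
      rw [e3]
      have h5 : (27 / 25 : ℝ) ^ k ≤ (531441 / 390625) ^ (h0 + 1) := by
        calc (27 / 25 : ℝ) ^ k ≤ (27 / 25) ^ (4 * (h0 + 1)) :=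
              pow_le_pow_right₀ (by norm_num) h4.le
          _ = (531441 / 390625) ^ (h0 + 1) := by rw [pow_mul]; norm_num
      have e4 : (81 / 50 : ℝ) ^ (2 * (h0 + d)) = (6561 / 2500) ^ (h0 + d) := by
        rw [pow_mul]; norm_num
      calc (104 : ℝ) * 16 ^ (h0 + d) * (9 ^ k * (27 / 25) ^ k)
          ≤ 104 * 16 ^ (h0 + d) * (9 ^ k * (531441 / 390625) ^ (h0 + 1)) := by
            have : (0 : ℝ) ≤ 16 ^ (h0 + d) * 9 ^ k := by positivity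
            nlinarith
        _ = (104 * (531441 / 390625)) * (9 ^ k * ((16 * (531441 / 390625)) ^ h0 * 16 ^ d)) := by
            rw [pow_add 16 h0 d, pow_succ (531441 / 390625 : ℝ) h0, mul_pow]; ring
        _ ≤ 142 * (9 ^ k * ((9 * (6561 / 2500)) ^ h0 * (9 * (6561 / 2500) * (24 / 25)) ^ d)) := by
            have a1 : ((16 : ℝ) * (531441 / 390625)) ^ h0 ≤ (9 * (6561 / 2500)) ^ h0 :=
              pow_le_pow_left₀ (by norm_num) (by norm_num) _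
            have a2 : (16 : ℝ) ^ d ≤ (9 * (6561 / 2500) * (24 / 25)) ^ d :=
              pow_le_pow_left₀ (by norm_num) (by norm_num) _
            have a3 : ((16 : ℝ) * (531441 / 390625)) ^ h0 * 16 ^ d ≤
              (9 * (6561 / 2500)) ^ h0 * (9 * (6561 / 2500) * (24 / 25)) ^ d :=
              mul_le_mul a1 a2 (by positivity) (by positivity)
            have a4 : (9 : ℝ) ^ k * (((16 : ℝ) * (531441 / 390625)) ^ h0 * 16 ^ d) ≤
              9 ^ k * ((9 * (6561 / 2500)) ^ h0 * (9 * (6561 / 2500) * (24 / 25)) ^ d) :=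
              mul_le_mul_of_nonneg_left a3 (by positivity)
            refine mul_le_mul (by norm_num) a4 (by positivity) (by norm_num)
        _ = 142 * B * (81 / 50) ^ (2 * (h0 + d)) := by
            rw [e4, hB, mul_pow, mul_pow, mul_pow, pow_add, pow_add]; ring
    calc ((E0 D k (h0 + d)).card : ℝ) * 6 ^ k
        ≤ (3 * 3 ^ (h0 + d) * 2 ^ k + 104 * 16 ^ (h0 + d) * (81 / 50) ^ (k - 2 * (h0 + d))) *
            6 ^ k := mul_le_mul_of_nonneg_right hE (by positivity)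
      _ = 3 * 3 ^ (h0 + d) * 2 ^ k * 6 ^ k +
            104 * 16 ^ (h0 + d) * (81 / 50) ^ (k - 2 * (h0 + d)) * 6 ^ k := by ring
      _ ≤ 9 * B + 142 * B := add_le_add t1 t2
      _ ≤ 160 * B := by linarith
      _ = _ := by rw [hB]; ring
  · push Not at c
    have hE := E0_two hD hD2 (h0 + d) k hh
    have t2 : (18 : ℝ) * 12 ^ (h0 + d) * (81 / 50) ^ (k - (h0 + d)) * 6 ^ k ≤ 18 * B := by
      have hp : (0 : ℝ) < (81 / 50) ^ (h0 + d) := by positivity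
      rw [← mul_le_mul_iff_left₀ hp]
      have e2 : (81 / 50 : ℝ) ^ (k - (h0 + d)) * (81 / 50) ^ (h0 + d) =
          (81 / 50) ^ k := by rw [← pow_add]; congr 1; omega
      have e3 : (18 : ℝ) * 12 ^ (h0 + d) * (81 / 50) ^ (k - (h0 + d)) * 6 ^ k *
          (81 / 50) ^ (h0 + d) = 18 * 12 ^ (h0 + d) * (9 ^ k * (27 / 25) ^ k) := by
        rw [← e96, ← e2]; ring
      rw [e3]
      have h5 : (27 / 25 : ℝ) ^ k ≤ (729 / 625) ^ (h0 + d) := by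
        calc (27 / 25 : ℝ) ^ k ≤ (27 / 25) ^ (2 * (h0 + d)) :=
              pow_le_pow_right₀ (by norm_num) c.le
          _ = (729 / 625) ^ (h0 + d) := by rw [pow_mul]; norm_num
      have h6 : (24 / 25 : ℝ) ^ (h0 + d) ≤ (24 / 25) ^ d :=
        pow_le_pow_of_le_one (by norm_num) (by norm_num) (by omega)
      calc (18 : ℝ) * 12 ^ (h0 + d) * (9 ^ k * (27 / 25) ^ k)
          ≤ 18 * 12 ^ (h0 + d) * (9 ^ k * (729 / 625) ^ (h0 + d)) := by
            have : (0 : ℝ) ≤ 12 ^ (h0 + d) * 9 ^ k := by positivity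
            nlinarith
        _ = 18 * (9 ^ k * (12 * (729 / 625)) ^ (h0 + d)) := by
            rw [mul_pow]; ring
        _ = 18 * (9 ^ k * (9 * (81 / 50) * (24 / 25)) ^ (h0 + d)) := by norm_num
        _ = 18 * (9 ^ k * (9 ^ (h0 + d) * (81 / 50) ^ (h0 + d))) * (24 / 25) ^ (h0 + d) := by
            rw [mul_pow, mul_pow]; ring
        _ ≤ 18 * (9 ^ k * (9 ^ (h0 + d) * (81 / 50) ^ (h0 + d))) * (24 / 25) ^ d :=
            mul_le_mul_of_nonneg_left h6 (by positivity)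
        _ = 18 * B * (81 / 50) ^ (h0 + d) := by rw [hB]; ring
    calc ((E0 D k (h0 + d)).card : ℝ) * 6 ^ k
        ≤ (3 * 3 ^ (h0 + d) * 2 ^ k + 18 * 12 ^ (h0 + d) * (81 / 50) ^ (k - (h0 + d))) *
            6 ^ k := mul_le_mul_of_nonneg_right hE (by positivity)
      _ = 3 * 3 ^ (h0 + d) * 2 ^ k * 6 ^ k +
            18 * 12 ^ (h0 + d) * (81 / 50) ^ (k - (h0 + d)) * 6 ^ k := by ring
      _ ≤ 9 * B + 18 * B := add_le_add t1 t2
      _ ≤ 160 * B := by linarith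
      _ = _ := by rw [hB]; ring

/-- the sum over pairs of a function of a key -/
theorem sum_key {ι : Type*} [DecidableEq ι] (M : ℕ) [NeZero M] (P : Finset ι) (z : ι → ZMod M)
    (f : ZMod M → ℝ) (_hf : ∀ ζ, 0 ≤ f ζ) {E B : ℝ}
    (hE : (((P ×ˢ P).filter fun ab => z ab.1 = z ab.2).card : ℝ) ≤ E)
    (hB : ∑ ζ : ZMod M, f ζ ^ 2 ≤ B) : (∑ a ∈ P, f (z a)) ^ 2 ≤ E * B := by
  classical
  have e1 : ∑ a ∈ P, f (z a) = ∑ ζ : ZMod M, ((P.filter fun a => z a = ζ).card : ℝ) * f ζ := by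
    rw [← Finset.sum_fiberwise P z]
    refine Finset.sum_congr rfl fun ζ _ => ?_
    rw [Finset.sum_congr rfl (g := fun _ => f ζ) (fun a ha => by
      rw [(Finset.mem_filter.1 ha).2]), Finset.sum_const, nsmul_eq_mul]
  have e2 : ∑ ζ : ZMod M, ((P.filter fun a => z a = ζ).card : ℝ) ^ 2 =
      (((P ×ˢ P).filter fun ab => z ab.1 = z ab.2).card : ℝ) := by
    have e3 : ((P ×ˢ P).filter fun ab => z ab.1 = z ab.2).card =
        ∑ ζ : ZMod M, (P.filter fun a => z a = ζ).card ^ 2 := by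
      rw [Finset.card_eq_sum_card_fiberwise (f := fun ab : ι × ι => z ab.1)
        (t := (Finset.univ : Finset (ZMod M))) (fun _ _ => Finset.mem_coe.2 (Finset.mem_univ _))]
      refine Finset.sum_congr rfl fun ζ _ => ?_
      rw [sq, ← Finset.card_product]
      congr 1
      ext ⟨a, b⟩
      simp only [Finset.mem_filter, Finset.mem_product]
      constructor
      · rintro ⟨⟨⟨h1, h2⟩, h3⟩, h4⟩
        exact ⟨⟨h1, h4⟩, ⟨h2, h3 ▸ h4⟩⟩
      · rintro ⟨⟨h1, h4⟩, ⟨h2, h5⟩⟩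
        exact ⟨⟨⟨h1, h2⟩, h4.trans h5.symm⟩, h4⟩
    rw [e3]
    push_cast
    rfl
  rw [e1]
  calc (∑ ζ : ZMod M, ((P.filter fun a => z a = ζ).card : ℝ) * f ζ) ^ 2
      ≤ (∑ ζ : ZMod M, ((P.filter fun a => z a = ζ).card : ℝ) ^ 2) * ∑ ζ : ZMod M, f ζ ^ 2 :=
        Finset.sum_mul_sq_le_sq_mul_sq _ _ _
    _ ≤ E * B := by
        rw [e2]
        refine mul_le_mul hE hB (Finset.sum_nonneg fun _ _ => by positivity) ?_
        exact (Nat.cast_nonneg _).trans hE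

end Pool.Agent.Y950.NK
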