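import Pool.Agent.Y950.NK.Master

/-!
# The multiplicative energy, unit part
-/

set_option autoImplicit false

namespace Pool.Agent.Y950.NK

open Finset Pool.Agent.W288.NK

/-- quadruples `n, x, n', x'` of units modulo `3` with `n x' ≡ n' x` -/
def EU (D : Finset ℕ) (k h : ℕ) : Finset ((ℕ × ℕ) × (ℕ × ℕ)) :=
  ((Ico 1 (3 ^ h) ×ˢ CS 3 D k) ×ˢ (Ico 1 (3 ^ h) ×ˢ CS 3 D k)).filter fun t =>
    ¬ 3 ∣ t.1.1 ∧ ¬ 3 ∣ t.2.1 ∧ ¬ 3 ∣ t.1.2 ∧ ¬ 3 ∣ t.2.2 ∧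
      t.1.1 * t.2.2 ≡ t.2.1 * t.1.2 [MOD 3 ^ k]

theorem mem_EU {D : Finset ℕ} {k h : ℕ} {t : (ℕ × ℕ) × (ℕ × ℕ)} : t ∈ EU D k h ↔
    (((1 ≤ t.1.1 ∧ t.1.1 < 3 ^ h) ∧ t.1.2 ∈ CS 3 D k) ∧
      ((1 ≤ t.2.1 ∧ t.2.1 < 3 ^ h) ∧ t.2.2 ∈ CS 3 D k)) ∧
    ¬ 3 ∣ t.1.1 ∧ ¬ 3 ∣ t.2.1 ∧ ¬ 3 ∣ t.1.2 ∧ ¬ 3 ∣ t.2.2 ∧
      t.1.1 * t.2.2 ≡ t.2.1 * t.1.2 [MOD 3 ^ k] := by
  unfold EU
  rw [Finset.mem_filter, Finset.mem_product, Finset.mem_product, Finset.mem_product,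
    Finset.mem_Ico, Finset.mem_Ico]

theorem cop3 {a : ℕ} (ha : ¬ 3 ∣ a) (k : ℕ) : Nat.gcd (3 ^ k) a = 1 :=
  Nat.Coprime.pow_left k ((Nat.Prime.coprime_iff_not_dvd Nat.prime_three).2 ha)

theorem card_diag {D : Finset ℕ} (hD2 : D.card = 2) (k h : ℕ) :
    ((EU D k h).filter fun t => t.1.1 = t.2.1).card ≤ 3 ^ h * 2 ^ k := by
  have h1 : ((EU D k h).filter fun t => t.1.1 = t.2.1).card ≤
      (Ico 1 (3 ^ h) ×ˢ CS 3 D k).card := by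
    have key : ∀ t ∈ (EU D k h).filter fun t => t.1.1 = t.2.1, t.1 = t.2 := by
      intro t ht
      obtain ⟨h1, h2⟩ := Finset.mem_filter.1 ht
      rw [mem_EU] at h1
      obtain ⟨⟨⟨-, h3⟩, ⟨-, h4⟩⟩, h5, h6, h7, h8, h9⟩ := h1
      refine Prod.ext h2 ?_
      rw [← h2] at h9
      have h10 : t.2.2 % 3 ^ k = t.1.2 % 3 ^ k := Nat.ModEq.cancel_left_of_coprime (cop3 h5 k) h9
      rw [Nat.mod_eq_of_lt ((mem_CS _ _ _ _).1 h3).1, Nat.mod_eq_of_lt ((mem_CS _ _ _ _).1 h4).1]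
        at h10
      exact h10.symm
    refine Finset.card_le_card_of_injOn (fun t => t.1) ?_ ?_
    · intro t ht
      have h1 := (Finset.mem_filter.1 (Finset.mem_coe.1 ht)).1
      rw [mem_EU] at h1
      rw [Finset.mem_coe, Finset.mem_product, Finset.mem_Ico]
      exact h1.1.1
    · intro t ht s hs hts
      have e1 := key t (Finset.mem_coe.1 ht)
      have e2 := key s (Finset.mem_coe.1 hs)
      have hts' : t.1 = s.1 := hts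
      exact Prod.ext hts' (e1.symm.trans (hts'.trans e2))
  refine h1.trans ?_
  rw [Finset.card_product, Nat.card_Ico]
  exact Nat.mul_le_mul (Nat.sub_le _ _) (card_CS2 hD2 k)

open Classical in
/-- the quadruples with `n' - ε n` divisible by `3` exactly `v` times -/
noncomputable def OFF (D : Finset ℕ) (k h : ℕ) (ε : ℤ) (v : ℕ) : Finset ((ℕ × ℕ) × (ℕ × ℕ)) :=
  (EU D k h).filter fun t => ∃ m : ℤ, ¬ (3 : ℤ) ∣ m ∧ (t.2.1 : ℤ) - ε * t.1.1 = 3 ^ v * m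

theorem mem_OFF {D : Finset ℕ} {k h : ℕ} {ε : ℤ} {v : ℕ} {t : (ℕ × ℕ) × (ℕ × ℕ)} :
    t ∈ OFF D k h ε v ↔ t ∈ EU D k h ∧
      ∃ m : ℤ, ¬ (3 : ℤ) ∣ m ∧ (t.2.1 : ℤ) - ε * t.1.1 = 3 ^ v * m := by
  classical
  unfold OFF
  exact Finset.mem_filter

theorem exists_eps {n n' : ℕ} (h : ¬ 3 ∣ n) (h' : ¬ 3 ∣ n') (hne : n ≠ n') :
    ∃ ε : ℤ, (ε = 1 ∨ ε = -1) ∧ ∃ v : ℕ, 1 ≤ v ∧ ∃ m : ℤ, ¬ (3 : ℤ) ∣ m ∧
      (n' : ℤ) - ε * n = 3 ^ v * m := by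
  have key : ∀ z : ℤ, z ≠ 0 → (3 : ℤ) ∣ z → ∃ v : ℕ, 1 ≤ v ∧ ∃ m : ℤ, ¬ (3 : ℤ) ∣ m ∧
      z = 3 ^ v * m := by
    intro z hz h3
    have hf : FiniteMultiplicity (3 : ℤ) z := Int.finiteMultiplicity_iff.2 ⟨by norm_num, hz⟩
    obtain ⟨m, hm1, hm2⟩ := hf.exists_eq_pow_mul_and_not_dvd
    refine ⟨multiplicity (3 : ℤ) z, ?_, m, hm2, hm1⟩
    by_contra hc
    have h0 : multiplicity (3 : ℤ) z = 0 := by omega
    rw [h0, pow_zero, one_mul] at hm1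
    rw [hm1] at h3
    exact hm2 h3
  rcases Nat.eq_or_lt_of_le (Nat.zero_le n) with h0 | h0
  · exact absurd (h0 ▸ dvd_zero 3) h
  by_cases c : (3 : ℤ) ∣ (n' : ℤ) - 1 * n
  · refine ⟨1, Or.inl rfl, key _ ?_ c⟩
    omega
  · refine ⟨-1, Or.inr rfl, key _ ?_ ?_⟩
    · omega
    · have a1 : n % 3 = 1 ∨ n % 3 = 2 := by omega
      have a2 : n' % 3 = 1 ∨ n' % 3 = 2 := by omega
      rcases a1 with a1 | a1 <;> rcases a2 with a2 | a2 <;> omega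

theorem v_le {n n' h v : ℕ} (hn : n < 3 ^ h) (hn' : n' < 3 ^ h) {ε : ℤ} (hε : ε = 1 ∨ ε = -1)
    {m : ℤ} (hm : ¬ (3 : ℤ) ∣ m) (he : (n' : ℤ) - ε * n = 3 ^ v * m) : v ≤ h := by
  by_contra hc
  push Not at hc
  have h1 : (3 : ℤ) ^ (h + 1) ≤ 3 ^ v := pow_le_pow_right₀ (by norm_num) hc
  have hm0 : m ≠ 0 := by
    rintro rfl
    exact hm (dvd_zero _)
  have h2 : 1 ≤ |m| := Int.one_le_abs hm0
  have h3 : (3 : ℤ) ^ v ≤ |(n' : ℤ) - ε * n| := by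
    rw [he, abs_mul, abs_of_pos (by positivity : (0 : ℤ) < 3 ^ v)]
    have : (0 : ℤ) < 3 ^ v := by positivity
    nlinarith
  have hn1 : (n : ℤ) < 3 ^ h := by exact_mod_cast hn
  have hn2 : (n' : ℤ) < 3 ^ h := by exact_mod_cast hn'
  have h4 : |(n' : ℤ) - ε * n| < 2 * 3 ^ h := by
    rcases hε with rfl | rfl <;> rw [abs_lt] <;> constructor <;> omega
  rw [pow_succ] at h1
  have : (0 : ℤ) < 3 ^ h := by positivity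
  omega

theorem off_le_one {D : Finset ℕ} (hD : D ⊆ range 3) (hD2 : D.card = 2) {ψ : ℝ} (h1 : 1 ≤ ψ)
    (hψ : ψ + 1 ≤ ψ ^ 2) {ε : ℤ} (hε : ε = 1 ∨ ε = -1) {k h v : ℕ} (hv : 1 ≤ v) (hvh : v ≤ h)
    (hh : h ≤ k) : ((OFF D k h ε v).card : ℝ) ≤
      3 ^ h * (2 ^ v * 4 ^ (h - v)) * ψ ^ (k - h + v) := by
  have := master hD hD2 h1 hψ hε (k := k) (L := h) (v := v) (G := 3 ^ h) hv hvh hh (OFF D k h ε v)
    (fun t => t.1.1) ?_ ?_ ?_ ?_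
  · push_cast at this
    exact this
  · intro t ht
    rw [mem_OFF, mem_EU] at ht
    exact ht.1.1.1.1.2
  · intro t ht
    rw [mem_OFF, mem_EU] at ht
    exact ⟨ht.1.1.1.2, ht.1.1.2.2⟩
  · intro t ht
    rw [mem_OFF, mem_EU] at ht
    obtain ⟨⟨-, h5, -, -, -, -⟩, m, hm1, hm2⟩ := ht
    obtain ⟨κ, hκ, hr⟩ := ratio (k := k) h5 hm1 hm2
    refine ⟨κ, hκ, ?_⟩
    intro s hs e1 e2
    rw [mem_OFF, mem_EU] at hs
    have h9 := hs.1.2.2.2.2.2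
    rw [e1, e2] at h9
    exact hr _ _ h9
  · intro t ht s hs e1 e2 e3
    rw [mem_OFF, mem_EU] at ht hs
    refine ⟨e1, ?_⟩
    have e1' : s.1.1 = t.1.1 := e1
    have hd : 3 ^ h ∣ 3 ^ k := pow_dvd_pow 3 hh
    have h9 : t.1.1 * t.2.2 ≡ t.2.1 * t.1.2 [MOD 3 ^ h] := ht.1.2.2.2.2.2.of_dvd hd
    have h10 : s.1.1 * s.2.2 ≡ s.2.1 * s.1.2 [MOD 3 ^ h] := hs.1.2.2.2.2.2.of_dvd hd
    have e2' : s.1.2 ≡ t.1.2 [MOD 3 ^ h] := e2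
    have e3' : s.2.2 ≡ t.2.2 [MOD 3 ^ h] := e3
    have h11 : s.2.1 * t.1.2 ≡ t.2.1 * t.1.2 [MOD 3 ^ h] := by
      calc s.2.1 * t.1.2 ≡ s.2.1 * s.1.2 [MOD 3 ^ h] := e2'.symm.mul_left _
        _ ≡ s.1.1 * s.2.2 [MOD 3 ^ h] := h10.symm
        _ ≡ s.1.1 * t.2.2 [MOD 3 ^ h] := e3'.mul_left _
        _ = t.1.1 * t.2.2 := by rw [e1']
        _ ≡ t.2.1 * t.1.2 [MOD 3 ^ h] := h9
    have h12 : s.2.1 % 3 ^ h = t.2.1 % 3 ^ h :=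
      Nat.ModEq.cancel_right_of_coprime (cop3 ht.1.2.2.2.1 h) h11
    rwa [Nat.mod_eq_of_lt hs.1.1.2.1.2, Nat.mod_eq_of_lt ht.1.1.2.1.2] at h12

/-- the quadruples with `n' - ε n` divisible by `3` exactly `v` times and a fraction `n' / n` of
height about `3 ^ j` -/
noncomputable def OFFJ (D : Finset ℕ) (k h : ℕ) (ε : ℤ) (v j : ℕ) :
    Finset ((ℕ × ℕ) × (ℕ × ℕ)) :=
  (OFF D k h ε v).filter fun t =>
    3 ^ (j - 1) ≤ max (t.1.1 / Nat.gcd t.1.1 t.2.1) (t.2.1 / Nat.gcd t.1.1 t.2.1) ∧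
      max (t.1.1 / Nat.gcd t.1.1 t.2.1) (t.2.1 / Nat.gcd t.1.1 t.2.1) < 3 ^ j

theorem mem_OFFJ {D : Finset ℕ} {k h : ℕ} {ε : ℤ} {v j : ℕ} {t : (ℕ × ℕ) × (ℕ × ℕ)}
    (ht : t ∈ OFFJ D k h ε v j) : t ∈ OFF D k h ε v ∧ ∃ a b : ℕ, a.Coprime b ∧
      t.1.1 = a * Nat.gcd t.1.1 t.2.1 ∧ t.2.1 = b * Nat.gcd t.1.1 t.2.1 ∧
      ¬ 3 ∣ Nat.gcd t.1.1 t.2.1 ∧ 0 < a ∧
      3 ^ (j - 1) ≤ max a b ∧ a < 3 ^ j ∧ b < 3 ^ j := by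
  unfold OFFJ at ht
  obtain ⟨h1, h2, h3⟩ := Finset.mem_filter.1 ht
  refine ⟨h1, _, _, ?_, (Nat.div_mul_cancel (Nat.gcd_dvd_left t.1.1 t.2.1)).symm,
    (Nat.div_mul_cancel (Nat.gcd_dvd_right t.1.1 t.2.1)).symm, ?_, ?_, h2, ?_⟩
  · rw [mem_OFF, mem_EU] at h1
    exact Nat.coprime_div_gcd_div_gcd (Nat.gcd_pos_of_pos_left _ h1.1.1.1.1.1)
  · rw [mem_OFF, mem_EU] at h1
    intro h4
    exact h1.1.2.1 (h4.trans (Nat.gcd_dvd_left _ _))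
  · rw [mem_OFF, mem_EU] at h1
    exact Nat.div_pos (Nat.gcd_le_left _ h1.1.1.1.1.1)
      (Nat.gcd_pos_of_pos_left _ h1.1.1.1.1.1)
  · exact max_lt_iff.1 h3

theorem off_le_two {D : Finset ℕ} (hD : D ⊆ range 3) (hD2 : D.card = 2) {ψ : ℝ} (h1 : 1 ≤ ψ)
    (hψ : ψ + 1 ≤ ψ ^ 2) {ε : ℤ} (hε : ε = 1 ∨ ε = -1) {k h v j : ℕ} (hv : 1 ≤ v) (hvj : v ≤ j)
    (hj : j ≤ h) (hh : 2 * h ≤ k) : ((OFFJ D k h ε v j).card : ℝ) ≤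
      3 ^ (h - j + 1) * (2 ^ v * 4 ^ (2 * j - v)) * ψ ^ (k - 2 * j + v) := by
  have := master hD hD2 h1 hψ hε (k := k) (L := 2 * j) (v := v) (G := 3 ^ (h - j + 1)) hv
    (by omega) (by omega) (OFFJ D k h ε v j) (fun t => Nat.gcd t.1.1 t.2.1) ?_ ?_ ?_ ?_
  · push_cast at this
    exact this
  · intro t ht
    obtain ⟨h2, a, b, hab, ea, eb, h3, ha0, h4, h5, h6⟩ := mem_OFFJ ht
    rw [mem_OFF, mem_EU] at h2
    have h7 := h2.1.1.1.1.2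
    have h8 := h2.1.1.2.1.2
    have h9 : max a b * Nat.gcd t.1.1 t.2.1 < 3 ^ h := by
      rcases le_total a b with hab' | hab'
      · rw [max_eq_right hab', ← eb]
        exact h8
      · rw [max_eq_left hab', ← ea]
        exact h7
    have h10 : 3 ^ (j - 1) * Nat.gcd t.1.1 t.2.1 < 3 ^ (j - 1) * 3 ^ (h - j + 1) := by
      calc 3 ^ (j - 1) * Nat.gcd t.1.1 t.2.1 ≤ max a b * Nat.gcd t.1.1 t.2.1 :=
            Nat.mul_le_mul_right _ h4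
        _ < 3 ^ h := h9
        _ = 3 ^ (j - 1) * 3 ^ (h - j + 1) := by
            rw [← pow_add]
            congr 1
            omega
    exact lt_of_mul_lt_mul_left h10 (Nat.zero_le _)
  · intro t ht
    have h2 := (mem_OFFJ ht).1
    rw [mem_OFF, mem_EU] at h2
    exact ⟨h2.1.1.1.2, h2.1.1.2.2⟩
  · intro t ht
    have h2 := (mem_OFFJ ht).1
    rw [mem_OFF, mem_EU] at h2
    obtain ⟨⟨-, h5, -, -, -, -⟩, m, hm1, hm2⟩ := h2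
    obtain ⟨κ, hκ, hr⟩ := ratio (k := k) h5 hm1 hm2
    refine ⟨κ, hκ, ?_⟩
    intro s hs e1 e2
    have hs2 := (mem_OFFJ hs).1
    rw [mem_OFF, mem_EU] at hs2
    have h9 := hs2.1.2.2.2.2.2
    rw [e1, e2] at h9
    exact hr _ _ h9
  · intro t ht s hs e1 e2 e3
    obtain ⟨ht2, a, b, hab, ea, eb, h3, ha0, h4, h5, h6⟩ := mem_OFFJ ht
    obtain ⟨hs2, c, d, hcd, ec, ed, g3, hc0, g4, g5, g6⟩ := mem_OFFJ hs
    rw [mem_OFF, mem_EU] at ht2 hs2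
    have hd : 3 ^ (2 * j) ∣ 3 ^ k := pow_dvd_pow 3 (by omega)
    obtain ⟨g, hg⟩ : ∃ g, g = Nat.gcd t.1.1 t.2.1 := ⟨_, rfl⟩
    have hgs : Nat.gcd s.1.1 s.2.1 = g := by
      rw [hg]
      exact e1
    rw [hgs] at ec ed g3
    rw [← hg] at ea eb h3
    have cross : ∀ (a b x y : ℕ), (a * g) * y ≡ (b * g) * x [MOD 3 ^ k] →
        a * y ≡ b * x [MOD 3 ^ (2 * j)] := by
      intro a b x y hxy
      have e4 : a * g * y = g * (a * y) := by ring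
      have e5 : b * g * x = g * (b * x) := by ring
      rw [e4, e5] at hxy
      exact (Nat.ModEq.cancel_left_of_coprime (cop3 h3 k) hxy).of_dvd hd
    have k1 : a * t.2.2 ≡ b * t.1.2 [MOD 3 ^ (2 * j)] := by
      apply cross
      rw [← ea, ← eb]
      exact ht2.1.2.2.2.2.2
    have k2 : c * s.2.2 ≡ d * s.1.2 [MOD 3 ^ (2 * j)] := by
      apply cross
      rw [← ec, ← ed]
      exact hs2.1.2.2.2.2.2
    have e2' : s.1.2 ≡ t.1.2 [MOD 3 ^ (2 * j)] := e2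
    have e3' : s.2.2 ≡ t.2.2 [MOD 3 ^ (2 * j)] := e3
    have k3 : c * t.2.2 ≡ d * t.1.2 [MOD 3 ^ (2 * j)] :=
      ((e3'.symm.mul_left c).trans k2).trans (e2'.mul_left d)
    have k4 : (a * d) * t.1.2 ≡ (c * b) * t.1.2 [MOD 3 ^ (2 * j)] := by
      calc a * d * t.1.2 = a * (d * t.1.2) := by ring
        _ ≡ a * (c * t.2.2) [MOD 3 ^ (2 * j)] := k3.symm.mul_left a
        _ = c * (a * t.2.2) := by ring
        _ ≡ c * (b * t.1.2) [MOD 3 ^ (2 * j)] := k1.mul_left c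
        _ = c * b * t.1.2 := by ring
    have k5 : (a * d) % 3 ^ (2 * j) = (c * b) % 3 ^ (2 * j) :=
      Nat.ModEq.cancel_right_of_coprime (cop3 ht2.1.2.2.2.1 _) k4
    have e6 : 3 ^ (2 * j) = 3 ^ j * 3 ^ j := by rw [← pow_add]; congr 1; omega
    rw [Nat.mod_eq_of_lt (by rw [e6]; exact Nat.mul_lt_mul'' h5 g6),
      Nat.mod_eq_of_lt (by rw [e6]; exact Nat.mul_lt_mul'' g5 h6)] at k5
    have k6 : a ∣ c := hab.dvd_of_dvd_mul_right (k5 ▸ Dvd.intro _ rfl)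
    have k7 : c ∣ a := hcd.dvd_of_dvd_mul_right (k5 ▸ Dvd.intro _ rfl)
    have k8 : c = a := Nat.dvd_antisymm k7 k6
    have k9 : d = b := by
      rw [k8] at k5
      exact Nat.eq_of_mul_eq_mul_left ha0 k5
    exact ⟨by rw [ec, ea, k8], by rw [ed, eb, k9]⟩

end Pool.Agent.Y950.NK
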