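import Pool.Agent.Y950.NK.Energy

/-!
# The multiplicative energy
-/

set_option autoImplicit false

namespace Pool.Agent.Y950.NK

open Finset Pool.Agent.W288.NK

theorem geom81 (j : ℕ) : ∑ v ∈ Icc 1 j, ((81 : ℝ) / 100) ^ v ≤ 81 / 19 := by
  have h : ∑ v ∈ Icc 1 j, ((81 : ℝ) / 100) ^ v ≤ 81 / 19 - 100 / 19 * (81 / 100) ^ (j + 1) := by
    induction j with
    | zero => norm_num
    | succ j ih =>
      rw [Finset.sum_Icc_succ_top (by omega)]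
      have e : ((81 : ℝ) / 100) ^ (j + 1 + 1) = (81 / 100) ^ (j + 1) * (81 / 100) := pow_succ _ _
      rw [e]
      linarith
  have h2 : (0 : ℝ) ≤ (81 / 100) ^ (j + 1) := by positivity
  linarith

theorem term_eq (ψ : ℝ) {v L : ℕ} (hv : v ≤ L) (K : ℕ) :
    (2 : ℝ) ^ v * 4 ^ (L - v) * ψ ^ (K + v) = 4 ^ L * ψ ^ K * (ψ / 2) ^ v := by
  obtain ⟨d, rfl⟩ := Nat.exists_eq_add_of_le hv
  rw [Nat.add_sub_cancel_left, pow_add, pow_add, div_pow]
  have h4 : (4 : ℝ) ^ v = 2 ^ v * 2 ^ v := by rw [← mul_pow]; norm_num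
  rw [h4]
  have h2 : (2 : ℝ) ^ v ≠ 0 := by positivity
  field_simp

theorem EU_sub (D : Finset ℕ) (k h : ℕ) : EU D k h ⊆
    ((EU D k h).filter fun t => t.1.1 = t.2.1) ∪
      ((Icc 1 h).biUnion (OFF D k h 1) ∪ (Icc 1 h).biUnion (OFF D k h (-1))) := by
  intro t ht
  rw [Finset.mem_union, Finset.mem_union, Finset.mem_filter]
  by_cases c : t.1.1 = t.2.1
  · exact Or.inl ⟨ht, c⟩
  · right
    have ht' := mem_EU.1 ht
    obtain ⟨ε, hε, v, hv, m, hm, he⟩ := exists_eps ht'.2.1 ht'.2.2.1 c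
    have hvh : v ≤ h := v_le ht'.1.1.1.2 ht'.1.2.1.2 hε hm he
    rcases hε with rfl | rfl
    · left
      rw [Finset.mem_biUnion]
      exact ⟨v, Finset.mem_Icc.2 ⟨hv, hvh⟩, mem_OFF.2 ⟨ht, m, hm, he⟩⟩
    · right
      rw [Finset.mem_biUnion]
      exact ⟨v, Finset.mem_Icc.2 ⟨hv, hvh⟩, mem_OFF.2 ⟨ht, m, hm, he⟩⟩

theorem EU_two {D : Finset ℕ} (hD : D ⊆ range 3) (hD2 : D.card = 2) {k h : ℕ} (hh : h ≤ k) :
    ((EU D k h).card : ℝ) ≤ 3 ^ h * 2 ^ k + 9 * 12 ^ h * (81 / 50) ^ (k - h) := by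
  have key : ∀ ε : ℤ, (ε = 1 ∨ ε = -1) → (((Icc 1 h).biUnion (OFF D k h ε)).card : ℝ) ≤
      81 / 19 * 12 ^ h * (81 / 50) ^ (k - h) := by
    intro ε hε
    have h1 : (((Icc 1 h).biUnion (OFF D k h ε)).card : ℝ) ≤
        ∑ v ∈ Icc 1 h, ((OFF D k h ε v).card : ℝ) := by
      exact_mod_cast Finset.card_biUnion_le
    refine h1.trans ?_
    calc ∑ v ∈ Icc 1 h, ((OFF D k h ε v).card : ℝ)
        ≤ ∑ v ∈ Icc 1 h, (12 ^ h * (81 / 50) ^ (k - h)) * ((81 : ℝ) / 100) ^ v := by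
          refine Finset.sum_le_sum fun v hv => ?_
          rw [Finset.mem_Icc] at hv
          refine (off_le_one hD hD2 (by norm_num : (1 : ℝ) ≤ 81 / 50) (by norm_num) hε hv.1 hv.2
            hh).trans (le_of_eq ?_)
          have e := term_eq (81 / 50) hv.2 (k - h)
          rw [mul_assoc ((3 : ℝ) ^ h), e]
          have e2 : (12 : ℝ) ^ h = 3 ^ h * 4 ^ h := by rw [← mul_pow]; norm_num
          rw [e2]
          norm_num
          ring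
      _ = (12 ^ h * (81 / 50) ^ (k - h)) * ∑ v ∈ Icc 1 h, ((81 : ℝ) / 100) ^ v := by
          rw [Finset.mul_sum]
      _ ≤ (12 ^ h * (81 / 50) ^ (k - h)) * (81 / 19) :=
          mul_le_mul_of_nonneg_left (geom81 h) (by positivity)
      _ = _ := by ring
  have h2 : (EU D k h).card ≤ ((EU D k h).filter fun t => t.1.1 = t.2.1).card +
      (((Icc 1 h).biUnion (OFF D k h 1)).card + ((Icc 1 h).biUnion (OFF D k h (-1))).card) :=
    (Finset.card_le_card (EU_sub D k h)).trans ((Finset.card_union_le _ _).trans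
      (Nat.add_le_add_left (Finset.card_union_le _ _) _))
  have h3 : ((EU D k h).card : ℝ) ≤ (((EU D k h).filter fun t => t.1.1 = t.2.1).card : ℝ) +
      ((((Icc 1 h).biUnion (OFF D k h 1)).card : ℝ) +
        (((Icc 1 h).biUnion (OFF D k h (-1))).card : ℝ)) := by exact_mod_cast h2
  have h4 : (((EU D k h).filter fun t => t.1.1 = t.2.1).card : ℝ) ≤ 3 ^ h * 2 ^ k := by
    exact_mod_cast card_diag hD2 k h
  have h5 := key 1 (Or.inl rfl)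
  have h6 := key (-1) (Or.inr rfl)
  have h7 : (0 : ℝ) ≤ 12 ^ h * (81 / 50) ^ (k - h) := by positivity
  nlinarith

theorem OFF_sub (D : Finset ℕ) (k h : ℕ) {ε : ℤ} (hε : ε = 1 ∨ ε = -1) {v : ℕ} (hv : 1 ≤ v) :
    OFF D k h ε v ⊆ (Icc 1 h).biUnion fun j => (Icc 1 j).biUnion fun v => OFFJ D k h ε v j := by
  intro t ht
  have ht' := ht
  rw [mem_OFF, mem_EU] at ht'
  obtain ⟨h1, m, hm, he⟩ := ht'
  have hg : 0 < Nat.gcd t.1.1 t.2.1 := Nat.gcd_pos_of_pos_left _ h1.1.1.1.1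
  obtain ⟨a, ha⟩ : ∃ a, a = t.1.1 / Nat.gcd t.1.1 t.2.1 := ⟨_, rfl⟩
  obtain ⟨b, hb⟩ : ∃ b, b = t.2.1 / Nat.gcd t.1.1 t.2.1 := ⟨_, rfl⟩
  have ea : t.1.1 = a * Nat.gcd t.1.1 t.2.1 := by
    rw [ha]
    exact (Nat.div_mul_cancel (Nat.gcd_dvd_left t.1.1 t.2.1)).symm
  have eb : t.2.1 = b * Nat.gcd t.1.1 t.2.1 := by
    rw [hb]
    exact (Nat.div_mul_cancel (Nat.gcd_dvd_right t.1.1 t.2.1)).symm
  have ha0 : 0 < a := by
    rw [ha]
    exact Nat.div_pos (Nat.gcd_le_left _ h1.1.1.1.1) hg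
  have h3g : ¬ 3 ∣ Nat.gcd t.1.1 t.2.1 := fun h4 => h1.2.1 (h4.trans (Nat.gcd_dvd_left _ _))
  have hab0 : max a b ≠ 0 := (lt_of_lt_of_le ha0 (le_max_left a b)).ne'
  obtain ⟨j, hj⟩ : ∃ j, j = Nat.log 3 (max a b) + 1 := ⟨_, rfl⟩
  have h5 : 3 ^ (j - 1) ≤ max a b := by
    rw [hj, Nat.add_sub_cancel]
    exact Nat.pow_log_le_self 3 hab0
  have h6 : max a b < 3 ^ j := by
    rw [hj]
    exact Nat.lt_pow_succ_log_self (by norm_num) _
  have h7 : max a b < 3 ^ h := by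
    have h8 : a ≤ t.1.1 := by rw [ha]; exact Nat.div_le_self _ _
    have h9 : b ≤ t.2.1 := by rw [hb]; exact Nat.div_le_self _ _
    exact max_lt (lt_of_le_of_lt h8 h1.1.1.1.2) (lt_of_le_of_lt h9 h1.1.2.1.2)
  have hj1 : 1 ≤ j := by omega
  have hjh : j ≤ h := by
    have h8 : 3 ^ (j - 1) < 3 ^ h := lt_of_le_of_lt h5 h7
    have h9 := (Nat.pow_lt_pow_iff_right (by norm_num : 1 < 3)).1 h8
    omega
  have hdv : (3 : ℤ) ^ v ∣ (b : ℤ) - ε * a := by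
    have hc : IsCoprime ((3 : ℤ) ^ v) ((Nat.gcd t.1.1 t.2.1 : ℕ) : ℤ) := by
      have := Nat.isCoprime_iff_coprime.2 (show Nat.Coprime (3 ^ v) (Nat.gcd t.1.1 t.2.1) from
        cop3 h3g v)
      exact_mod_cast this
    refine hc.dvd_of_dvd_mul_left (?_ : _ ∣ ((Nat.gcd t.1.1 t.2.1 : ℕ) : ℤ) * _)
    refine ⟨m, ?_⟩
    rw [← he]
    have ea' : (t.1.1 : ℤ) = a * ((Nat.gcd t.1.1 t.2.1 : ℕ) : ℤ) := by exact_mod_cast ea
    have eb' : (t.2.1 : ℤ) = b * ((Nat.gcd t.1.1 t.2.1 : ℕ) : ℤ) := by exact_mod_cast eb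
    linear_combination (-1 : ℤ) * eb' + ε * ea'
  obtain ⟨m', hm'⟩ := hdv
  have hm3 : ¬ (3 : ℤ) ∣ m' := by
    intro h8
    apply hm
    have ea' : (t.1.1 : ℤ) = a * ((Nat.gcd t.1.1 t.2.1 : ℕ) : ℤ) := by exact_mod_cast ea
    have eb' : (t.2.1 : ℤ) = b * ((Nat.gcd t.1.1 t.2.1 : ℕ) : ℤ) := by exact_mod_cast eb
    have e1 : (3 : ℤ) ^ v * m = 3 ^ v * (m' * ((Nat.gcd t.1.1 t.2.1 : ℕ) : ℤ)) := by
      linear_combination (-1 : ℤ) * he + eb' - ε * ea' +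
        ((Nat.gcd t.1.1 t.2.1 : ℕ) : ℤ) * hm'
    have e2 := mul_left_cancel₀ (by positivity : (3 : ℤ) ^ v ≠ 0) e1
    rw [e2]
    exact Dvd.dvd.mul_right h8 _
  have hvj : v ≤ j := v_le (lt_of_le_of_lt (le_max_left a b) h6)
    (lt_of_le_of_lt (le_max_right a b) h6) hε hm3 hm'
  rw [Finset.mem_biUnion]
  refine ⟨j, Finset.mem_Icc.2 ⟨hj1, hjh⟩, ?_⟩
  rw [Finset.mem_biUnion]
  refine ⟨v, Finset.mem_Icc.2 ⟨hv, hvj⟩, ?_⟩
  unfold OFFJ
  rw [Finset.mem_filter, ← ha, ← hb]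
  exact ⟨ht, h5, h6⟩

theorem sum_j {k h : ℕ} (hh : 2 * h ≤ k) :
    ∑ j ∈ Icc 1 h, (3 : ℝ) ^ (h + 1 - j) * 16 ^ j * (81 / 50) ^ (k - 2 * j) ≤
      6 * 16 ^ h * (81 / 50) ^ (k - 2 * h) := by
  induction h with
  | zero => simp; positivity
  | succ h ih =>
    rw [Finset.sum_Icc_succ_top (by omega)]
    have h1 : ∑ j ∈ Icc 1 h, (3 : ℝ) ^ (h + 1 + 1 - j) * 16 ^ j * (81 / 50) ^ (k - 2 * j) =
        3 * ∑ j ∈ Icc 1 h, (3 : ℝ) ^ (h + 1 - j) * 16 ^ j * (81 / 50) ^ (k - 2 * j) := by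
      rw [Finset.mul_sum]
      refine Finset.sum_congr rfl fun j hj => ?_
      rw [Finset.mem_Icc] at hj
      have e : h + 1 + 1 - j = (h + 1 - j) + 1 := by omega
      rw [e, pow_succ]
      ring
    rw [h1]
    have h2 := ih (by omega)
    obtain ⟨e, he⟩ : ∃ e, k = e + 2 * (h + 1) := ⟨k - 2 * (h + 1), by omega⟩
    have e1 : k - 2 * (h + 1) = e := by omega
    have e2 : k - 2 * h = e + 2 := by omega
    have e3 : h + 1 + 1 - (h + 1) = 1 := by omega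
    rw [e1, e3]
    rw [e2] at h2
    have h3 : (0 : ℝ) ≤ 16 ^ h * (81 / 50) ^ e := by positivity
    have h4 : (6 : ℝ) * 16 ^ h * (81 / 50) ^ (e + 2) =
        6 * (81 / 50) ^ 2 * (16 ^ h * (81 / 50) ^ e) := by ring
    have h5 : (6 : ℝ) * 16 ^ (h + 1) * (81 / 50) ^ e = 96 * (16 ^ h * (81 / 50) ^ e) := by ring
    have h6 : (3 : ℝ) ^ 1 * 16 ^ (h + 1) * (81 / 50) ^ e = 48 * (16 ^ h * (81 / 50) ^ e) := by ring
    rw [h4] at h2
    rw [h5, h6]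
    nlinarith

theorem EU_one {D : Finset ℕ} (hD : D ⊆ range 3) (hD2 : D.card = 2) {k h : ℕ} (hh : 2 * h ≤ k) :
    ((EU D k h).card : ℝ) ≤ 3 ^ h * 2 ^ k + 52 * 16 ^ h * (81 / 50) ^ (k - 2 * h) := by
  have key : ∀ ε : ℤ, (ε = 1 ∨ ε = -1) → (((Icc 1 h).biUnion (OFF D k h ε)).card : ℝ) ≤
      26 * 16 ^ h * (81 / 50) ^ (k - 2 * h) := by
    intro ε hε
    have h0 : (Icc 1 h).biUnion (OFF D k h ε) ⊆
        (Icc 1 h).biUnion fun j => (Icc 1 j).biUnion fun v => OFFJ D k h ε v j := by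
      rw [Finset.biUnion_subset]
      intro v hv
      exact OFF_sub D k h hε (Finset.mem_Icc.1 hv).1
    have h1 : (((Icc 1 h).biUnion (OFF D k h ε)).card : ℝ) ≤
        ∑ j ∈ Icc 1 h, ∑ v ∈ Icc 1 j, ((OFFJ D k h ε v j).card : ℝ) := by
      have h2 : ((Icc 1 h).biUnion (OFF D k h ε)).card ≤
          ∑ j ∈ Icc 1 h, ∑ v ∈ Icc 1 j, (OFFJ D k h ε v j).card :=
        (Finset.card_le_card h0).trans (Finset.card_biUnion_le.trans
          (Finset.sum_le_sum fun j _ => Finset.card_biUnion_le))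
      exact_mod_cast h2
    refine h1.trans ?_
    calc ∑ j ∈ Icc 1 h, ∑ v ∈ Icc 1 j, ((OFFJ D k h ε v j).card : ℝ)
        ≤ ∑ j ∈ Icc 1 h, (3 : ℝ) ^ (h + 1 - j) * 16 ^ j * (81 / 50) ^ (k - 2 * j) *
            (81 / 19) := by
          refine Finset.sum_le_sum fun j hj => ?_
          rw [Finset.mem_Icc] at hj
          calc ∑ v ∈ Icc 1 j, ((OFFJ D k h ε v j).card : ℝ)
              ≤ ∑ v ∈ Icc 1 j, ((3 : ℝ) ^ (h + 1 - j) * 16 ^ j * (81 / 50) ^ (k - 2 * j)) *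
                  ((81 : ℝ) / 100) ^ v := by
                refine Finset.sum_le_sum fun v hv => ?_
                rw [Finset.mem_Icc] at hv
                refine (off_le_two hD hD2 (by norm_num : (1 : ℝ) ≤ 81 / 50) (by norm_num) hε hv.1
                  hv.2 hj.2 hh).trans (le_of_eq ?_)
                have e := term_eq (81 / 50) (show v ≤ 2 * j by omega) (k - 2 * j)
                rw [mul_assoc ((3 : ℝ) ^ (h - j + 1)), e]
                have e2 : (16 : ℝ) ^ j = 4 ^ (2 * j) := by rw [pow_mul]; norm_num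
                have e3 : h + 1 - j = h - j + 1 := by omega
                rw [e2, e3]
                norm_num
                ring
            _ = ((3 : ℝ) ^ (h + 1 - j) * 16 ^ j * (81 / 50) ^ (k - 2 * j)) *
                  ∑ v ∈ Icc 1 j, ((81 : ℝ) / 100) ^ v := by rw [Finset.mul_sum]
            _ ≤ _ := mul_le_mul_of_nonneg_left (geom81 j) (by positivity)
      _ = (∑ j ∈ Icc 1 h, (3 : ℝ) ^ (h + 1 - j) * 16 ^ j * (81 / 50) ^ (k - 2 * j)) *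
            (81 / 19) := by rw [Finset.sum_mul]
      _ ≤ (6 * 16 ^ h * (81 / 50) ^ (k - 2 * h)) * (81 / 19) :=
          mul_le_mul_of_nonneg_right (sum_j hh) (by norm_num)
      _ ≤ _ := by
          have h7 : (0 : ℝ) ≤ 16 ^ h * (81 / 50) ^ (k - 2 * h) := by positivity
          nlinarith
  have h2 : (EU D k h).card ≤ ((EU D k h).filter fun t => t.1.1 = t.2.1).card +
      (((Icc 1 h).biUnion (OFF D k h 1)).card + ((Icc 1 h).biUnion (OFF D k h (-1))).card) :=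
    (Finset.card_le_card (EU_sub D k h)).trans ((Finset.card_union_le _ _).trans
      (Nat.add_le_add_left (Finset.card_union_le _ _) _))
  have h3 : ((EU D k h).card : ℝ) ≤ (((EU D k h).filter fun t => t.1.1 = t.2.1).card : ℝ) +
      ((((Icc 1 h).biUnion (OFF D k h 1)).card : ℝ) +
        (((Icc 1 h).biUnion (OFF D k h (-1))).card : ℝ)) := by exact_mod_cast h2
  have h4 : (((EU D k h).filter fun t => t.1.1 = t.2.1).card : ℝ) ≤ 3 ^ h * 2 ^ k := by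
    exact_mod_cast card_diag hD2 k h
  have h5 := key 1 (Or.inl rfl)
  have h6 := key (-1) (Or.inr rfl)
  linarith

/-- quadruples `n, x, n', x'` with `n x' ≡ n' x` -/
def E0 (D : Finset ℕ) (k h : ℕ) : Finset ((ℕ × ℕ) × (ℕ × ℕ)) :=
  ((Ico 1 (3 ^ h) ×ˢ CS 3 D k) ×ˢ (Ico 1 (3 ^ h) ×ˢ CS 3 D k)).filter fun t =>
    ¬ 3 ∣ t.1.2 ∧ ¬ 3 ∣ t.2.2 ∧ t.1.1 * t.2.2 ≡ t.2.1 * t.1.2 [MOD 3 ^ k]

theorem mem_E0 {D : Finset ℕ} {k h : ℕ} {t : (ℕ × ℕ) × (ℕ × ℕ)} : t ∈ E0 D k h ↔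
    (((1 ≤ t.1.1 ∧ t.1.1 < 3 ^ h) ∧ t.1.2 ∈ CS 3 D k) ∧
      ((1 ≤ t.2.1 ∧ t.2.1 < 3 ^ h) ∧ t.2.2 ∈ CS 3 D k)) ∧
    ¬ 3 ∣ t.1.2 ∧ ¬ 3 ∣ t.2.2 ∧ t.1.1 * t.2.2 ≡ t.2.1 * t.1.2 [MOD 3 ^ k] := by
  unfold E0
  rw [Finset.mem_filter, Finset.mem_product, Finset.mem_product, Finset.mem_product,
    Finset.mem_Ico, Finset.mem_Ico]

theorem E0_zero (D : Finset ℕ) (k : ℕ) : (E0 D k 0).card = 0 := by
  rw [Finset.card_eq_zero, Finset.eq_empty_iff_forall_notMem]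
  intro t ht
  rw [mem_E0, pow_zero] at ht
  omega

theorem E0_succ {D : Finset ℕ} (hD2 : D.card = 2) {k h : ℕ} (hh : h ≤ k) :
    (E0 D (k + 1) (h + 1)).card ≤ (EU D (k + 1) (h + 1)).card + 4 * (E0 D k h).card := by
  have h1 : (E0 D (k + 1) (h + 1)).card = ((E0 D (k + 1) (h + 1)).filter fun t => 3 ∣ t.1.1).card +
      ((E0 D (k + 1) (h + 1)).filter fun t => ¬ 3 ∣ t.1.1).card :=
    (Finset.card_filter_add_card_filter_not _).symm
  have hiff : ∀ t ∈ E0 D (k + 1) (h + 1), 3 ∣ t.1.1 ↔ 3 ∣ t.2.1 := by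
    intro t ht
    rw [mem_E0] at ht
    obtain ⟨-, h2, h3, h4⟩ := ht
    have h5 : t.1.1 * t.2.2 ≡ t.2.1 * t.1.2 [MOD 3] := h4.of_dvd (dvd_pow_self 3 (by omega))
    constructor
    · intro h6
      have h7 : t.2.1 * t.1.2 ≡ 0 [MOD 3] :=
        h5.symm.trans ((Nat.modEq_zero_iff_dvd).2 (Dvd.dvd.mul_right h6 _))
      exact ((Nat.Prime.dvd_mul Nat.prime_three).1 ((Nat.modEq_zero_iff_dvd).1 h7)).resolve_right h2
    · intro h6
      have h7 : t.1.1 * t.2.2 ≡ 0 [MOD 3] :=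
        h5.trans ((Nat.modEq_zero_iff_dvd).2 (Dvd.dvd.mul_right h6 _))
      exact ((Nat.Prime.dvd_mul Nat.prime_three).1 ((Nat.modEq_zero_iff_dvd).1 h7)).resolve_right h3
  have h2 : ((E0 D (k + 1) (h + 1)).filter fun t => ¬ 3 ∣ t.1.1).card ≤
      (EU D (k + 1) (h + 1)).card := by
    refine Finset.card_le_card ?_
    intro t ht
    obtain ⟨ht1, ht2⟩ := Finset.mem_filter.1 ht
    have ht3 := (hiff t ht1).not.1 ht2
    rw [mem_E0] at ht1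
    rw [mem_EU]
    exact ⟨ht1.1, ht2, ht3, ht1.2.1, ht1.2.2.1, ht1.2.2.2⟩
  have h3 : ((E0 D (k + 1) (h + 1)).filter fun t => 3 ∣ t.1.1).card ≤
      (E0 D k h ×ˢ (D ×ˢ D)).card := by
    have hk0 : ∀ t ∈ (E0 D (k + 1) (h + 1)).filter fun t => 3 ∣ t.1.1, 1 ≤ k := by
      intro t ht
      obtain ⟨ht1, ht2⟩ := Finset.mem_filter.1 ht
      rw [mem_E0] at ht1
      by_contra hc
      have h0 : h = 0 := by omega
      have h4 := ht1.1.1.1
      rw [h0] at h4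
      obtain ⟨c, hc⟩ := ht2
      norm_num at h4
      omega
    have hdig : ∀ x ∈ CS 3 D (k + 1), x / 3 ^ k ∈ D := by
      intro x hx
      have h4 := (mem_CS _ _ _ _).1 hx
      have h5 := h4.2 k (by omega)
      have h6 : x / 3 ^ k < 3 := by
        rw [Nat.div_lt_iff_lt_mul (by positivity), ← pow_succ']
        exact h4.1
      rwa [Nat.mod_eq_of_lt h6] at h5
    refine Finset.card_le_card_of_injOn (fun t => (((t.1.1 / 3, t.1.2 % 3 ^ k),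
      (t.2.1 / 3, t.2.2 % 3 ^ k)), (t.1.2 / 3 ^ k, t.2.2 / 3 ^ k))) ?_ ?_
    · intro t ht
      have hk1 := hk0 t (Finset.mem_coe.1 ht)
      obtain ⟨ht1, ht2⟩ := Finset.mem_filter.1 (Finset.mem_coe.1 ht)
      have ht3 := (hiff t ht1).1 ht2
      rw [mem_E0] at ht1
      obtain ⟨⟨⟨⟨a1, a2⟩, a3⟩, ⟨⟨a4, a5⟩, a6⟩⟩, a7, a8, a9⟩ := ht1
      obtain ⟨b, hb⟩ := ht2
      obtain ⟨c, hc⟩ := ht3
      have eb : t.1.1 / 3 = b := by rw [hb]; exact Nat.mul_div_cancel_left _ (by norm_num)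
      have ec : t.2.1 / 3 = c := by rw [hc]; exact Nat.mul_div_cancel_left _ (by norm_num)
      rw [Finset.mem_coe, Finset.mem_product, Finset.mem_product]
      refine ⟨?_, hdig _ a3, hdig _ a6⟩
      rw [mem_E0]
      simp only
      rw [eb, ec]
      rw [pow_succ] at a2 a5
      have h3k : 3 ∣ 3 ^ k := dvd_pow_self 3 (by omega)
      refine ⟨⟨⟨⟨by omega, by omega⟩, CS_mod (by omega) a3⟩, ⟨⟨by omega, by omega⟩,
        CS_mod (by omega) a6⟩⟩, ?_, ?_, ?_⟩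
      · rw [Nat.dvd_mod_iff h3k]
        exact a7
      · rw [Nat.dvd_mod_iff h3k]
        exact a8
      · rw [hb, hc, pow_succ', mul_assoc, mul_assoc] at a9
        have a10 : b * t.2.2 ≡ c * t.1.2 [MOD 3 ^ k] :=
          Nat.ModEq.mul_left_cancel' (by norm_num) a9
        have e1 : t.2.2 % 3 ^ k ≡ t.2.2 [MOD 3 ^ k] := Nat.mod_modEq _ _
        have e2 : t.1.2 % 3 ^ k ≡ t.1.2 [MOD 3 ^ k] := Nat.mod_modEq _ _
        exact ((e1.mul_left b).trans a10).trans (e2.mul_left c).symm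
    · intro t ht s hs hts
      obtain ⟨ht1, ht2⟩ := Finset.mem_filter.1 (Finset.mem_coe.1 ht)
      have ht3 := (hiff t ht1).1 ht2
      obtain ⟨hs1, hs2⟩ := Finset.mem_filter.1 (Finset.mem_coe.1 hs)
      have hs3 := (hiff s hs1).1 hs2
      simp only [Prod.mk.injEq] at hts
      obtain ⟨⟨⟨e1, e2⟩, ⟨e3, e4⟩⟩, e5, e6⟩ := hts
      refine Prod.ext (Prod.ext ?_ ?_) (Prod.ext ?_ ?_)
      · rw [← Nat.mul_div_cancel' ht2, ← Nat.mul_div_cancel' hs2, e1]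
      · rw [← Nat.div_add_mod t.1.2 (3 ^ k), ← Nat.div_add_mod s.1.2 (3 ^ k), e2, e5]
      · rw [← Nat.mul_div_cancel' ht3, ← Nat.mul_div_cancel' hs3, e3]
      · rw [← Nat.div_add_mod t.2.2 (3 ^ k), ← Nat.div_add_mod s.2.2 (3 ^ k), e4, e6]
  rw [Finset.card_product, Finset.card_product, hD2] at h3
  omega

theorem E0_one {D : Finset ℕ} (hD : D ⊆ range 3) (hD2 : D.card = 2) (h : ℕ) : ∀ k, 2 * h ≤ k →
    ((E0 D k h).card : ℝ) ≤ 3 * 3 ^ h * 2 ^ k + 104 * 16 ^ h * (81 / 50) ^ (k - 2 * h) := by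
  induction h with
  | zero =>
    intro k _
    rw [E0_zero, Nat.cast_zero]
    positivity
  | succ h ih =>
    intro k hk
    obtain ⟨e, rfl⟩ : ∃ e, k = e + 2 * h + 1 + 1 := ⟨k - 2 * h - 2, by omega⟩
    have h1 := E0_succ hD2 (D := D) (k := e + 2 * h + 1) (h := h) (by omega)
    have h2 := ih (e + 2 * h + 1) (by omega)
    have h3 := EU_one hD hD2 (k := e + 2 * h + 1 + 1) (h := h + 1) (by omega)
    have h4 : ((E0 D (e + 2 * h + 1 + 1) (h + 1)).card : ℝ) ≤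
        ((EU D (e + 2 * h + 1 + 1) (h + 1)).card : ℝ) +
          4 * ((E0 D (e + 2 * h + 1) h).card : ℝ) := by exact_mod_cast h1
    have e1 : e + 2 * h + 1 - 2 * h = e + 1 := by omega
    have e2 : e + 2 * h + 1 + 1 - 2 * (h + 1) = e := by omega
    rw [e1] at h2
    rw [e2] at h3 ⊢
    have h5 : (3 : ℝ) * 3 ^ (h + 1) * 2 ^ (e + 2 * h + 1 + 1) =
      18 * (3 ^ h * 2 ^ (e + 2 * h + 1)) := by rw [pow_succ 3 h, pow_succ 2 (e + 2 * h + 1)]; ring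
    have h6 : (3 : ℝ) ^ (h + 1) * 2 ^ (e + 2 * h + 1 + 1) =
      6 * (3 ^ h * 2 ^ (e + 2 * h + 1)) := by rw [pow_succ 3 h, pow_succ 2 (e + 2 * h + 1)]; ring
    have h7 : (104 : ℝ) * 16 ^ (h + 1) * (81 / 50) ^ e = 1664 * (16 ^ h * (81 / 50) ^ e) := by ring
    have h8 : (52 : ℝ) * 16 ^ (h + 1) * (81 / 50) ^ e = 832 * (16 ^ h * (81 / 50) ^ e) := by ring
    have h9 : (104 : ℝ) * 16 ^ h * (81 / 50) ^ (e + 1) =
      104 * (81 / 50) * (16 ^ h * (81 / 50) ^ e) := by ring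
    have h10 : (3 : ℝ) * 3 ^ h * 2 ^ (e + 2 * h + 1) = 3 * (3 ^ h * 2 ^ (e + 2 * h + 1)) := by ring
    rw [h5, h7]
    rw [h6, h8] at h3
    rw [h9, h10] at h2
    have h11 : (0 : ℝ) ≤ 16 ^ h * (81 / 50) ^ e := by positivity
    have h12 : (0 : ℝ) ≤ 3 ^ h * 2 ^ (e + 2 * h + 1) := by positivity
    nlinarith

theorem E0_two {D : Finset ℕ} (hD : D ⊆ range 3) (hD2 : D.card = 2) (h : ℕ) : ∀ k, h ≤ k →
    ((E0 D k h).card : ℝ) ≤ 3 * 3 ^ h * 2 ^ k + 18 * 12 ^ h * (81 / 50) ^ (k - h) := by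
  induction h with
  | zero =>
    intro k _
    rw [E0_zero, Nat.cast_zero]
    positivity
  | succ h ih =>
    intro k hk
    obtain ⟨e, rfl⟩ : ∃ e, k = e + h + 1 := ⟨k - h - 1, by omega⟩
    have h1 := E0_succ hD2 (D := D) (k := e + h) (h := h) (by omega)
    have h2 := ih (e + h) (by omega)
    have h3 := EU_two hD hD2 (k := e + h + 1) (h := h + 1) (by omega)
    have h4 : ((E0 D (e + h + 1) (h + 1)).card : ℝ) ≤
        ((EU D (e + h + 1) (h + 1)).card : ℝ) +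
          4 * ((E0 D (e + h) h).card : ℝ) := by exact_mod_cast h1
    have e1 : e + h - h = e := by omega
    have e2 : e + h + 1 - (h + 1) = e := by omega
    rw [e1] at h2
    rw [e2] at h3 ⊢
    have h5 : (3 : ℝ) * 3 ^ (h + 1) * 2 ^ (e + h + 1) =
      18 * (3 ^ h * 2 ^ (e + h)) := by rw [pow_succ 3 h, pow_succ 2 (e + h)]; ring
    have h6 : (3 : ℝ) ^ (h + 1) * 2 ^ (e + h + 1) =
      6 * (3 ^ h * 2 ^ (e + h)) := by rw [pow_succ 3 h, pow_succ 2 (e + h)]; ring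
    have h7 : (18 : ℝ) * 12 ^ (h + 1) * (81 / 50) ^ e = 216 * (12 ^ h * (81 / 50) ^ e) := by ring
    have h8 : (9 : ℝ) * 12 ^ (h + 1) * (81 / 50) ^ e = 108 * (12 ^ h * (81 / 50) ^ e) := by ring
    have h9 : (18 : ℝ) * 12 ^ h * (81 / 50) ^ e = 18 * (12 ^ h * (81 / 50) ^ e) := by ring
    have h10 : (3 : ℝ) * 3 ^ h * 2 ^ (e + h) = 3 * (3 ^ h * 2 ^ (e + h)) := by ring
    rw [h5, h7]
    rw [h6, h8] at h3
    rw [h9, h10] at h2
    have h11 : (0 : ℝ) ≤ 12 ^ h * (81 / 50) ^ e := by positivity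
    have h12 : (0 : ℝ) ≤ 3 ^ h * 2 ^ (e + h) := by positivity
    nlinarith

end Pool.Agent.Y950.NK
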