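import Pool.Agent.Y950.NK.Pairs

/-!
# Counting quadruples by the lowest digits

The basic estimate for a family of quadruples `n, x, n', x'` in which `n` and `n'` are determined by
a parameter `g < G` and by the `L` lowest digits of `x` and `x'`.
-/

set_option autoImplicit false

namespace Pool.Agent.Y950.NK

open Finset Pool.Agent.W288.NK

theorem CS_mod {D : Finset ℕ} {v L x : ℕ} (hv : v ≤ L) (h : x ∈ CS 3 D L) :
    x % 3 ^ v ∈ CS 3 D v := by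
  rw [mem_CS] at h ⊢
  refine ⟨Nat.mod_lt _ (by positivity), ?_⟩
  rw [good_mod]
  intro i hi
  exact h.2 i (by omega)

theorem CS_div {D : Finset ℕ} {v L x : ℕ} (hv : v ≤ L) (h : x ∈ CS 3 D L) :
    x / 3 ^ v ∈ CS 3 D (L - v) := by
  rw [mem_CS] at h ⊢
  refine ⟨?_, ?_⟩
  · rw [Nat.div_lt_iff_lt_mul (by positivity), ← pow_add, Nat.sub_add_cancel hv]
    exact h.1
  · apply good_high 3 D v (L - v)
    rw [Nat.add_sub_cancel' hv]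
    exact h.2

theorem card_CS2 {D : Finset ℕ} (hD2 : D.card = 2) (k : ℕ) : (CS 3 D k).card ≤ 2 ^ k := by
  have := card_CS 3 (by norm_num) D k
  rwa [hD2] at this

/-- pairs of residues modulo `3 ^ L` whose ratio is `ε` modulo `3 ^ v` -/
def YP (D : Finset ℕ) (ε : ℤ) (v L : ℕ) : Finset (ℕ × ℕ) :=
  (CS 3 D L ×ˢ CS 3 D L).filter fun p => (3 : ℤ) ^ v ∣ (p.2 : ℤ) - ε * p.1

theorem card_YP {D : Finset ℕ} (hD2 : D.card = 2) (ε : ℤ) {v L : ℕ} (hv : v ≤ L) :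
    (YP D ε v L).card ≤ 2 ^ v * 4 ^ (L - v) := by
  have h1 : (YP D ε v L).card ≤ (CS 3 D v ×ˢ (CS 3 D (L - v) ×ˢ CS 3 D (L - v))).card := by
    refine Finset.card_le_card_of_injOn
      (fun p => (p.1 % 3 ^ v, (p.1 / 3 ^ v, p.2 / 3 ^ v))) ?_ ?_
    · intro p hp
      have hp' := (Finset.mem_filter.1 (Finset.mem_coe.1 hp)).1
      rw [Finset.mem_product] at hp'
      rw [Finset.mem_coe, Finset.mem_product, Finset.mem_product]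
      exact ⟨CS_mod hv hp'.1, CS_div hv hp'.1, CS_div hv hp'.2⟩
    · intro p hp r hr hpr
      have hp' := (Finset.mem_filter.1 (Finset.mem_coe.1 hp)).2
      have hr' := (Finset.mem_filter.1 (Finset.mem_coe.1 hr)).2
      simp only [Prod.mk.injEq] at hpr
      obtain ⟨e1, e2, e3⟩ := hpr
      have e4 : p.1 = r.1 := by
        rw [← Nat.div_add_mod p.1 (3 ^ v), ← Nat.div_add_mod r.1 (3 ^ v), e1, e2]
      refine Prod.ext e4 ?_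
      rw [e4] at hp'
      have e5 := dvd_sub hp' hr'
      have e6 : (p.2 : ℤ) - ε * r.1 - ((r.2 : ℤ) - ε * r.1) = (p.2 : ℤ) - r.2 := by ring
      rw [e6] at e5
      have e7 : r.2 ≡ p.2 [MOD 3 ^ v] := by
        rw [Nat.modEq_iff_dvd]
        exact_mod_cast e5
      have e8 : r.2 % 3 ^ v = p.2 % 3 ^ v := e7
      rw [← Nat.div_add_mod p.2 (3 ^ v), ← Nat.div_add_mod r.2 (3 ^ v), e3, e8]
  refine h1.trans ?_
  rw [Finset.card_product, Finset.card_product]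
  refine Nat.mul_le_mul (card_CS2 hD2 v) ?_
  have h2 := card_CS2 hD2 (L - v)
  calc _ ≤ 2 ^ (L - v) * 2 ^ (L - v) := Nat.mul_le_mul h2 h2
    _ = 4 ^ (L - v) := by
        rw [← mul_pow]
        norm_num

theorem hi_count {D : Finset ℕ} (ρ : ℤ) {k L : ℕ} (hL : L ≤ k) (y y' : ℕ) :
    ((CS 3 D k ×ˢ CS 3 D k).filter fun p => p.1 % 3 ^ L = y ∧ p.2 % 3 ^ L = y' ∧
      (3 : ℤ) ^ k ∣ ρ * p.1 - p.2).card ≤ cnt D ρ (k - L) ((ρ * y - y') / 3 ^ L) := by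
  unfold cnt
  refine Finset.card_le_card_of_injOn (fun p => (p.1 / 3 ^ L, p.2 / 3 ^ L)) ?_ ?_
  · intro p hp
    obtain ⟨hp1, hp2, hp3, hp4⟩ := Finset.mem_filter.1 (Finset.mem_coe.1 hp)
    rw [Finset.mem_product] at hp1
    rw [Finset.mem_coe, Finset.mem_filter, Finset.mem_product]
    refine ⟨⟨CS_div hL hp1.1, CS_div hL hp1.2⟩, ?_⟩
    have e1 : (p.1 : ℤ) = 3 ^ L * ((p.1 / 3 ^ L : ℕ) : ℤ) + (y : ℤ) := by
      rw [← hp2]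
      exact_mod_cast (Nat.div_add_mod p.1 (3 ^ L)).symm
    have e2 : (p.2 : ℤ) = 3 ^ L * ((p.2 / 3 ^ L : ℕ) : ℤ) + (y' : ℤ) := by
      rw [← hp3]
      exact_mod_cast (Nat.div_add_mod p.2 (3 ^ L)).symm
    rw [e1, e2] at hp4
    have e3 : ρ * (3 ^ L * ((p.1 / 3 ^ L : ℕ) : ℤ) + (y : ℤ)) -
        (3 ^ L * ((p.2 / 3 ^ L : ℕ) : ℤ) + (y' : ℤ)) = (ρ * y - y') +
        3 ^ L * (ρ * ((p.1 / 3 ^ L : ℕ) : ℤ) - ((p.2 / 3 ^ L : ℕ) : ℤ)) := by ring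
    rw [e3] at hp4
    have e4 : (3 : ℤ) ^ L ∣ ρ * y - y' :=
      (Int.dvd_add_left (Dvd.intro _ rfl)).1 ((pow_dvd_pow _ hL).trans hp4)
    obtain ⟨u, hu⟩ := e4
    have e5 : (3 : ℤ) ^ k = 3 ^ L * 3 ^ (k - L) := by rw [← pow_add, Nat.add_sub_cancel' hL]
    rw [hu, ← mul_add, e5] at hp4
    have h3 : (3 : ℤ) ^ L ≠ 0 := by positivity
    have e6 := (mul_dvd_mul_iff_left h3).1 hp4
    rw [hu, Int.mul_ediv_cancel_left _ h3]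
    have e7 : ρ * ((p.1 / 3 ^ L : ℕ) : ℤ) + u - ((p.2 / 3 ^ L : ℕ) : ℤ) =
        u + (ρ * ((p.1 / 3 ^ L : ℕ) : ℤ) - ((p.2 / 3 ^ L : ℕ) : ℤ)) := by ring
    rw [e7]
    exact e6
  · intro p hp r hr hpr
    obtain ⟨-, hp2, hp3, -⟩ := Finset.mem_filter.1 (Finset.mem_coe.1 hp)
    obtain ⟨-, hr2, hr3, -⟩ := Finset.mem_filter.1 (Finset.mem_coe.1 hr)
    simp only [Prod.mk.injEq] at hpr
    refine Prod.ext ?_ ?_
    · rw [← Nat.div_add_mod p.1 (3 ^ L), ← Nat.div_add_mod r.1 (3 ^ L), hpr.1, hp2, hr2]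
    · rw [← Nat.div_add_mod p.2 (3 ^ L), ← Nat.div_add_mod r.2 (3 ^ L), hpr.2, hp3, hr3]

/-- **the basic estimate** -/
theorem master {D : Finset ℕ} (hD : D ⊆ range 3) (hD2 : D.card = 2) {ψ : ℝ} (h1 : 1 ≤ ψ)
    (hψ : ψ + 1 ≤ ψ ^ 2) {ε : ℤ} (hε : ε = 1 ∨ ε = -1) {k L v G : ℕ} (hv : 1 ≤ v) (hvL : v ≤ L)
    (hLk : L ≤ k) (T : Finset ((ℕ × ℕ) × (ℕ × ℕ))) (g : (ℕ × ℕ) × (ℕ × ℕ) → ℕ)
    (hg : ∀ t ∈ T, g t < G) (hx : ∀ t ∈ T, t.1.2 ∈ CS 3 D k ∧ t.2.2 ∈ CS 3 D k)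
    (hρ : ∀ t ∈ T, ∃ κ : ℤ, ¬ (3 : ℤ) ∣ κ ∧ ∀ s ∈ T, s.1.1 = t.1.1 → s.2.1 = t.2.1 →
      (3 : ℤ) ^ k ∣ (ε + 3 ^ v * κ) * s.1.2 - s.2.2)
    (hkey : ∀ t ∈ T, ∀ s ∈ T, g s = g t → s.1.2 % 3 ^ L = t.1.2 % 3 ^ L →
      s.2.2 % 3 ^ L = t.2.2 % 3 ^ L → s.1.1 = t.1.1 ∧ s.2.1 = t.2.1) :
    (T.card : ℝ) ≤ G * (2 ^ v * 4 ^ (L - v)) * ψ ^ (k - L + v) := by
  classical
  obtain ⟨f, hf⟩ : ∃ f : (ℕ × ℕ) × (ℕ × ℕ) → ℕ × (ℕ × ℕ),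
      f = fun t => (g t, (t.1.2 % 3 ^ L, t.2.2 % 3 ^ L)) := ⟨_, rfl⟩
  have hψ0 : 0 ≤ ψ ^ (k - L + v) := pow_nonneg (by linarith) _
  have h2 := Finset.card_le_mul_card_image (f := f) T ⌊ψ ^ (k - L + v)⌋₊ (fun a ha => by
    obtain ⟨t, ht, rfl⟩ := Finset.mem_image.1 ha
    refine Nat.le_floor ?_
    obtain ⟨κ, hκ, hr⟩ := hρ t ht
    have h3 : ({x ∈ T | f x = f t} : Finset _).card ≤
        ((CS 3 D k ×ˢ CS 3 D k).filter fun p => p.1 % 3 ^ L = t.1.2 % 3 ^ L ∧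
          p.2 % 3 ^ L = t.2.2 % 3 ^ L ∧
          (3 : ℤ) ^ k ∣ (ε + 3 ^ v * κ) * p.1 - p.2).card := by
      have hdet : ∀ s ∈ ({x ∈ T | f x = f t} : Finset _), s ∈ T ∧ s.1.1 = t.1.1 ∧
          s.2.1 = t.2.1 ∧ s.1.2 % 3 ^ L = t.1.2 % 3 ^ L ∧ s.2.2 % 3 ^ L = t.2.2 % 3 ^ L := by
        intro s hs
        obtain ⟨hs1, hs2⟩ := Finset.mem_filter.1 hs
        rw [hf] at hs2
        simp only [Prod.mk.injEq] at hs2
        obtain ⟨e1, e2, e3⟩ := hs2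
        have := hkey t ht s hs1 e1 e2 e3
        exact ⟨hs1, this.1, this.2, e2, e3⟩
      refine Finset.card_le_card_of_injOn (fun s => (s.1.2, s.2.2)) ?_ ?_
      · intro s hs
        obtain ⟨hs1, e1, e2, e3, e4⟩ := hdet s (Finset.mem_coe.1 hs)
        rw [Finset.mem_coe, Finset.mem_filter, Finset.mem_product]
        exact ⟨hx s hs1, e3, e4, hr s hs1 e1 e2⟩
      · intro s hs r hr' hsr
        obtain ⟨hs1, e1, e2, e3, e4⟩ := hdet s (Finset.mem_coe.1 hs)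
        obtain ⟨hr1, f1, f2, f3, f4⟩ := hdet r (Finset.mem_coe.1 hr')
        simp only [Prod.mk.injEq] at hsr
        exact Prod.ext (Prod.ext (e1.trans f1.symm) hsr.1) (Prod.ext (e2.trans f2.symm) hsr.2)
    have h4 := h3.trans (hi_count (D := D) (ε + 3 ^ v * κ) hLk (t.1.2 % 3 ^ L) (t.2.2 % 3 ^ L))
    have h5 := cnt_le hD hD2 h1 hψ hε hκ hv (k - L)
      (((ε + 3 ^ v * κ) * ((t.1.2 % 3 ^ L : ℕ) : ℤ) - ((t.2.2 % 3 ^ L : ℕ) : ℤ)) / 3 ^ L)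
    exact le_trans (by exact_mod_cast h4) h5)
  have h3 : (T.image f).card ≤ G * (2 ^ v * 4 ^ (L - v)) := by
    have h4 : T.image f ⊆ range G ×ˢ YP D ε v L := by
      intro a ha
      obtain ⟨t, ht, rfl⟩ := Finset.mem_image.1 ha
      rw [hf, Finset.mem_product]
      refine ⟨Finset.mem_range.2 (hg t ht), ?_⟩
      unfold YP
      rw [Finset.mem_filter, Finset.mem_product]
      refine ⟨⟨CS_mod hLk (hx t ht).1, CS_mod hLk (hx t ht).2⟩, ?_⟩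
      obtain ⟨κ, hκ, hr⟩ := hρ t ht
      have h5 := hr t ht rfl rfl
      have h6 : (3 : ℤ) ^ v ∣ (ε + 3 ^ v * κ) * t.1.2 - t.2.2 :=
        (pow_dvd_pow _ (hvL.trans hLk)).trans h5
      have e1 : (t.1.2 : ℤ) = 3 ^ L * ((t.1.2 / 3 ^ L : ℕ) : ℤ) + ((t.1.2 % 3 ^ L : ℕ) : ℤ) := by
        exact_mod_cast (Nat.div_add_mod t.1.2 (3 ^ L)).symm
      have e2 : (t.2.2 : ℤ) = 3 ^ L * ((t.2.2 / 3 ^ L : ℕ) : ℤ) + ((t.2.2 % 3 ^ L : ℕ) : ℤ) := by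
        exact_mod_cast (Nat.div_add_mod t.2.2 (3 ^ L)).symm
      have e3 : (3 : ℤ) ^ L = 3 ^ v * 3 ^ (L - v) := by rw [← pow_add, Nat.add_sub_cancel' hvL]
      rw [e1, e2, e3] at h6
      obtain ⟨c, hc⟩ := h6
      refine ⟨-c + κ * (3 ^ v * 3 ^ (L - v) * ((t.1.2 / 3 ^ L : ℕ) : ℤ) +
        ((t.1.2 % 3 ^ L : ℕ) : ℤ)) + ε * 3 ^ (L - v) * ((t.1.2 / 3 ^ L : ℕ) : ℤ) -
        3 ^ (L - v) * ((t.2.2 / 3 ^ L : ℕ) : ℤ), ?_⟩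
      show ((t.2.2 % 3 ^ L : ℕ) : ℤ) - ε * ((t.1.2 % 3 ^ L : ℕ) : ℤ) = _
      linear_combination (-1 : ℤ) * hc
    refine (Finset.card_le_card h4).trans ?_
    rw [Finset.card_product, Finset.card_range]
    exact Nat.mul_le_mul_left _ (card_YP hD2 ε hvL)
  have h4 : (T.card : ℝ) ≤ (⌊ψ ^ (k - L + v)⌋₊ : ℝ) * ((T.image f).card : ℝ) := by
    exact_mod_cast h2
  have h5 : ((T.image f).card : ℝ) ≤ G * (2 ^ v * 4 ^ (L - v)) := by exact_mod_cast h3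
  calc (T.card : ℝ) ≤ (⌊ψ ^ (k - L + v)⌋₊ : ℝ) * ((T.image f).card : ℝ) := h4
    _ ≤ ψ ^ (k - L + v) * (G * (2 ^ v * 4 ^ (L - v))) :=
        mul_le_mul (Nat.floor_le hψ0) h5 (Nat.cast_nonneg _) hψ0
    _ = _ := by ring

theorem ratio {ε : ℤ} {k v n n' : ℕ} (hn : ¬ 3 ∣ n) {m : ℤ} (hm : ¬ (3 : ℤ) ∣ m)
    (h : (n' : ℤ) - ε * n = 3 ^ v * m) : ∃ κ : ℤ, ¬ (3 : ℤ) ∣ κ ∧ ∀ x x' : ℕ,
      n * x' ≡ n' * x [MOD 3 ^ k] → (3 : ℤ) ^ k ∣ (ε + 3 ^ v * κ) * x - x' := by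
  have hc : IsCoprime (n : ℤ) 3 := by
    have h0 : Nat.Coprime n 3 :=
      Nat.Coprime.symm ((Nat.Prime.coprime_iff_not_dvd Nat.prime_three).2 hn)
    exact_mod_cast Nat.isCoprime_iff_coprime.2 h0
  obtain ⟨b, c, hbc⟩ := hc.pow_right (n := k + 1)
  have h3 : ¬ (3 : ℤ) ∣ b := by
    intro hb
    have h4 : (3 : ℤ) ∣ b * n + c * 3 ^ (k + 1) :=
      dvd_add (Dvd.dvd.mul_right hb _) (Dvd.dvd.mul_left (dvd_pow_self _ (by omega)) _)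
    rw [hbc] at h4
    norm_num at h4
  refine ⟨m * b, ?_, ?_⟩
  · intro h4
    rcases Int.Prime.dvd_mul' (p := 3) (by norm_num) h4 with h5 | h5
    · exact hm h5
    · exact h3 h5
  · intro x x' hx
    have h4 : ((3 ^ k : ℕ) : ℤ) ∣ ((n' * x : ℕ) : ℤ) - ((n * x' : ℕ) : ℤ) :=
      (Nat.modEq_iff_dvd).1 hx
    push_cast at h4
    have hck : IsCoprime ((3 : ℤ) ^ k) (n : ℤ) := (hc.pow_right (n := k)).symm
    refine hck.dvd_of_dvd_mul_left ?_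
    have e : (n : ℤ) * ((ε + 3 ^ v * (m * b)) * x - x') = ((n' : ℤ) * x - n * x') +
        3 ^ k * (-(3 * c * 3 ^ v * m * x)) := by
      have e2 : (3 : ℤ) ^ (k + 1) = 3 ^ k * 3 := pow_succ _ _
      rw [e2] at hbc
      linear_combination (-(x : ℤ)) * h + 3 ^ v * m * x * hbc
    rw [e]
    exact dvd_add h4 (Dvd.intro _ rfl)

end Pool.Agent.Y950.NK
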