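import Mathlib

/-!
# A tree with the growth rate of the golden ratio

Digit expansions of integers in base three with digits `f, w₁, w₂` which represent the three residue
classes.  A family `S m τ` of numbers of leaves of trees of depth `m`, in which the node `τ` has two
children when the digit of `τ` is `f` and one child otherwise, and where the two children of such a
node differ in the digit at the place `w`, grows at most like the golden ratio.
-/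

set_option autoImplicit false

namespace Pool.Agent.Y950.NK

open Finset

section Tree

variable (f w₁ w₂ : ℤ)

/-- the lowest digit of `τ` -/
def dig (τ : ℤ) : ℤ := if (3 : ℤ) ∣ τ - f then f else if (3 : ℤ) ∣ τ - w₁ then w₁ else w₂

/-- the integer with the remaining digits -/
def nxt (τ : ℤ) : ℤ := (τ - dig f w₁ w₂ τ) / 3

/-- the number of the places `i < v` at which `τ` has the digit `f` -/
def Z (v : ℕ) (τ : ℤ) : ℕ :=
  ∑ i ∈ range v, if (3 : ℤ) ∣ (nxt f w₁ w₂)^[i] τ - f then 1 else 0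

variable {f w₁ w₂}

theorem dig_add (τ u : ℤ) : dig f w₁ w₂ (τ + 3 * u) = dig f w₁ w₂ τ := by
  have e : ∀ g : ℤ, (3 : ℤ) ∣ τ + 3 * u - g ↔ (3 : ℤ) ∣ τ - g := by
    intro g
    constructor <;> intro h <;> omega
  unfold dig
  simp only [e]

theorem nxt_add (τ u : ℤ) : nxt f w₁ w₂ (τ + 3 * u) = nxt f w₁ w₂ τ + u := by
  unfold nxt
  rw [dig_add]
  have : τ + 3 * u - dig f w₁ w₂ τ = (τ - dig f w₁ w₂ τ) + u * 3 := by ring
  rw [this, Int.add_mul_ediv_right _ _ (by norm_num)]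

theorem nxt_iter_add (i : ℕ) (τ u : ℤ) :
    (nxt f w₁ w₂)^[i] (τ + 3 ^ i * u) = (nxt f w₁ w₂)^[i] τ + u := by
  induction i generalizing τ with
  | zero => simp
  | succ i ih =>
    rw [Function.iterate_succ_apply, Function.iterate_succ_apply, pow_succ']
    have : τ + 3 * 3 ^ i * u = τ + 3 * (3 ^ i * u) := by ring
    rw [this, nxt_add, ih]

theorem nxt_iter_add' (i w : ℕ) (h : i ≤ w) (τ u : ℤ) :
    (nxt f w₁ w₂)^[i] (τ + 3 ^ w * u) = (nxt f w₁ w₂)^[i] τ + 3 ^ (w - i) * u := by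
  have : (3 : ℤ) ^ w * u = 3 ^ i * (3 ^ (w - i) * u) := by
    rw [← mul_assoc, ← pow_add]
    congr 2
    omega
  rw [this, nxt_iter_add]

theorem Z_le (v : ℕ) (τ : ℤ) : Z f w₁ w₂ v τ ≤ v := by
  unfold Z
  refine (Finset.sum_le_card_nsmul _ _ 1 fun i _ => ?_).trans (by simp)
  split_ifs <;> norm_num

theorem Z_succ (w : ℕ) (τ : ℤ) : Z f w₁ w₂ (w + 1) τ =
    (∑ i ∈ range w, if (3 : ℤ) ∣ (nxt f w₁ w₂)^[i + 1] τ - f then 1 else 0) +
      (if (3 : ℤ) ∣ τ - f then 1 else 0) := by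
  unfold Z
  rw [Finset.sum_range_succ']
  rfl

theorem Z_child (w : ℕ) (τ u : ℤ) : Z f w₁ w₂ (w + 1) (nxt f w₁ w₂ τ + 3 ^ w * u) =
    (∑ i ∈ range w, if (3 : ℤ) ∣ (nxt f w₁ w₂)^[i + 1] τ - f then 1 else 0) +
      (if (3 : ℤ) ∣ (nxt f w₁ w₂)^[w + 1] τ + u - f then 1 else 0) := by
  unfold Z
  rw [Finset.sum_range_succ, nxt_iter_add, ← Function.iterate_succ_apply]
  congr 1
  refine Finset.sum_congr rfl fun i hi => ?_
  rw [Finset.mem_range] at hi
  rw [nxt_iter_add' i w hi.le, ← Function.iterate_succ_apply]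
  have h3 : (3 : ℤ) ∣ 3 ^ (w - i) * u := Dvd.dvd.mul_right (dvd_pow_self _ (by omega)) _
  have : (3 : ℤ) ∣ (nxt f w₁ w₂)^[i + 1] τ + 3 ^ (w - i) * u - f ↔
      (3 : ℤ) ∣ (nxt f w₁ w₂)^[i + 1] τ - f := by
    constructor <;> intro h <;> omega
  simp only [this]

/-- **the growth of the tree** -/
theorem fibtree {ψ : ℝ} (h1 : 1 ≤ ψ) (hψ : ψ + 1 ≤ ψ ^ 2) (w : ℕ) (κ a b c₁ c₂ : ℤ)
    (hκ : ¬ (3 : ℤ) ∣ κ * a - κ * b) (hd1 : ¬ (3 : ℤ) ∣ f - w₁) (hd2 : ¬ (3 : ℤ) ∣ f - w₂)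
    (hd3 : ¬ (3 : ℤ) ∣ w₁ - w₂) (S : ℕ → ℤ → ℝ) (h0 : ∀ τ, S 0 τ ≤ 1)
    (hf : ∀ m τ, (3 : ℤ) ∣ τ - f → S (m + 1) τ ≤
      S m ((τ - f) / 3 + 3 ^ w * (κ * a)) + S m ((τ - f) / 3 + 3 ^ w * (κ * b)))
    (hw1 : ∀ m τ, (3 : ℤ) ∣ τ - w₁ → S (m + 1) τ ≤ S m ((τ - w₁) / 3 + 3 ^ w * (κ * c₁)))
    (hw2 : ∀ m τ, (3 : ℤ) ∣ τ - w₂ → S (m + 1) τ ≤ S m ((τ - w₂) / 3 + 3 ^ w * (κ * c₂)))
    (m : ℕ) (τ : ℤ) : S m τ ≤ ψ ^ (m + Z f w₁ w₂ (w + 1) τ) := by
  induction m generalizing τ with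
  | zero => exact (h0 τ).trans (one_le_pow₀ h1)
  | succ m ih =>
    obtain ⟨A, hA⟩ : ∃ A : ℕ, A = ∑ i ∈ range w,
        if (3 : ℤ) ∣ (nxt f w₁ w₂)^[i + 1] τ - f then 1 else 0 := ⟨_, rfl⟩
    have hψ0 : 0 ≤ ψ := by linarith
    have hp : 0 ≤ ψ ^ (m + A) := pow_nonneg hψ0 _
    rw [Z_succ, ← hA]
    by_cases c0 : (3 : ℤ) ∣ τ - f
    · rw [if_pos c0]
      have hn : nxt f w₁ w₂ τ = (τ - f) / 3 := by unfold nxt dig; rw [if_pos c0]
      refine (hf m τ c0).trans ?_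
      rw [← hn]
      have ea := ih (nxt f w₁ w₂ τ + 3 ^ w * (κ * a))
      have eb := ih (nxt f w₁ w₂ τ + 3 ^ w * (κ * b))
      rw [Z_child, ← hA] at ea eb
      have e3 : ψ ^ (m + 1 + (A + 1)) = ψ ^ (m + A) * ψ ^ 2 := by
        rw [← pow_add]; congr 1; omega
      rw [e3]
      by_cases ca : (3 : ℤ) ∣ (nxt f w₁ w₂)^[w + 1] τ + κ * a - f
      · have cb : ¬ (3 : ℤ) ∣ (nxt f w₁ w₂)^[w + 1] τ + κ * b - f := by
          intro cb
          apply hκ
          have := dvd_sub ca cb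
          have e : (nxt f w₁ w₂)^[w + 1] τ + κ * a - f - ((nxt f w₁ w₂)^[w + 1] τ + κ * b - f) =
            κ * a - κ * b := by ring
          rwa [e] at this
        rw [if_pos ca] at ea
        rw [if_neg cb] at eb
        have e4 : ψ ^ (m + (A + 1)) = ψ ^ (m + A) * ψ := by rw [← add_assoc, pow_succ]
        rw [e4] at ea
        rw [add_zero] at eb
        nlinarith
      · rw [if_neg ca, add_zero] at ea
        have e4 : ψ ^ (m + (A + 1)) = ψ ^ (m + A) * ψ := by rw [← add_assoc, pow_succ]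
        have eb' : S m (nxt f w₁ w₂ τ + 3 ^ w * (κ * b)) ≤ ψ ^ (m + A) * ψ := by
          refine eb.trans ?_
          rw [← e4]
          refine pow_le_pow_right₀ h1 ?_
          split_ifs <;> omega
        nlinarith
    · rw [if_neg c0, add_zero]
      have one : ∀ c wi : ℤ, nxt f w₁ w₂ τ = (τ - wi) / 3 →
          S (m + 1) τ ≤ S m ((τ - wi) / 3 + 3 ^ w * (κ * c)) → S (m + 1) τ ≤ ψ ^ (m + 1 + A) := by
        intro c wi hn h
        refine h.trans ?_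
        rw [← hn]
        have ea := ih (nxt f w₁ w₂ τ + 3 ^ w * (κ * c))
        rw [Z_child, ← hA] at ea
        refine ea.trans (pow_le_pow_right₀ h1 ?_)
        split_ifs <;> omega
      by_cases c1 : (3 : ℤ) ∣ τ - w₁
      · refine one c₁ w₁ ?_ (hw1 m τ c1)
        unfold nxt dig
        rw [if_neg c0, if_pos c1]
      · have c2 : (3 : ℤ) ∣ τ - w₂ := by omega
        refine one c₂ w₂ ?_ (hw2 m τ c2)
        unfold nxt dig
        rw [if_neg c0, if_neg c1]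

end Tree

end Pool.Agent.Y950.NK
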