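import Pool.Agent.W288.NK.Digits
import Pool.Agent.Y950.NK.Tree

/-!
# Pairs of integers with two ternary digits and a given ratio

If `ρ ≡ ± 1` modulo `3 ^ v` but not modulo `3 ^ (v + 1)`, then for a set `D` of two ternary digits and
every `τ` there are at most `ψ ^ (m + v)` pairs `x, x' < 3 ^ m` with digits in `D` and
`x' ≡ ρ x + τ` modulo `3 ^ m`.
-/

set_option autoImplicit false

namespace Pool.Agent.Y950.NK

open Finset Pool.Agent.W288.NK

/-- the number of pairs `x, x'` with `x' ≡ ρ x + τ` modulo `3 ^ m` -/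
def cnt (D : Finset ℕ) (ρ : ℤ) (m : ℕ) (τ : ℤ) : ℕ :=
  ((CS 3 D m ×ˢ CS 3 D m).filter fun p => (3 : ℤ) ^ m ∣ ρ * p.1 + τ - p.2).card

theorem CS_mod_div {D : Finset ℕ} {m x : ℕ} (h : x ∈ CS 3 D (m + 1)) :
    x % 3 ∈ D ∧ x / 3 ∈ CS 3 D m := by
  rw [mem_CS] at h
  obtain ⟨h1, h2⟩ := h
  refine ⟨by simpa using h2 0 (by omega), ?_⟩
  rw [mem_CS]
  refine ⟨?_, ?_⟩
  · rw [Nat.div_lt_iff_lt_mul (by norm_num)]
    rwa [pow_succ] at h1
  · have h3 : good 3 D (1 + m) x := by rwa [add_comm]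
    have := good_high 3 D 1 m x h3
    simpa using this

theorem cnt_succ (D : Finset ℕ) (ε κ : ℤ) (w m : ℕ) (τ : ℤ) :
    cnt D (ε + 3 ^ (w + 1) * κ) (m + 1) τ ≤ ∑ c ∈ D, ∑ c' ∈ D,
      if (3 : ℤ) ∣ τ - (c' - ε * c) then
        cnt D (ε + 3 ^ (w + 1) * κ) m ((τ - (c' - ε * c)) / 3 + 3 ^ w * (κ * c)) else 0 := by
  classical
  obtain ⟨ρ, hρ⟩ : ∃ ρ : ℤ, ρ = ε + 3 ^ (w + 1) * κ := ⟨_, rfl⟩
  rw [← hρ]
  rw [← Finset.sum_product' D D (fun (c c' : ℕ) => if (3 : ℤ) ∣ τ - (c' - ε * c) then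
        cnt D ρ m ((τ - (c' - ε * c)) / 3 + 3 ^ w * (κ * c)) else 0)]
  unfold cnt
  rw [Finset.card_eq_sum_card_fiberwise (f := fun p : ℕ × ℕ => (p.1 % 3, p.2 % 3))
    (t := D ×ˢ D) ?_]
  · refine Finset.sum_le_sum fun c hc => ?_
    have key : ∀ p : ℕ × ℕ, (p.1 % 3, p.2 % 3) = c → ρ * (p.1 : ℤ) + τ - p.2 =
        (τ - (c.2 - ε * c.1)) + 3 * (3 ^ w * (κ * c.1) + (ρ * ((p.1 / 3 : ℕ) : ℤ) -
          ((p.2 / 3 : ℕ) : ℤ))) := by
      intro p hp
      have e1 : (p.1 : ℤ) = 3 * ((p.1 / 3 : ℕ) : ℤ) + (c.1 : ℤ) := by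
        rw [← hp]
        exact_mod_cast (Nat.div_add_mod p.1 3).symm
      have e2 : (p.2 : ℤ) = 3 * ((p.2 / 3 : ℕ) : ℤ) + (c.2 : ℤ) := by
        rw [← hp]
        exact_mod_cast (Nat.div_add_mod p.2 3).symm
      rw [e1, e2, hρ, pow_succ]
      ring
    have hdv : ∀ p : ℕ × ℕ, p ∈ ((CS 3 D (m + 1) ×ˢ CS 3 D (m + 1)).filter
        fun p => (3 : ℤ) ^ (m + 1) ∣ ρ * p.1 + τ - p.2) → (p.1 % 3, p.2 % 3) = c →
        (3 : ℤ) ∣ τ - (c.2 - ε * c.1) ∧ (3 : ℤ) ^ m ∣ ρ * ((p.1 / 3 : ℕ) : ℤ) +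
          ((τ - (c.2 - ε * c.1)) / 3 + 3 ^ w * (κ * c.1)) - ((p.2 / 3 : ℕ) : ℤ) := by
      intro p hp hpc
      have h1 := (Finset.mem_filter.1 hp).2
      rw [key p hpc] at h1
      have h2 : (3 : ℤ) ∣ τ - (c.2 - ε * c.1) := by
        have h3 := (dvd_pow_self (3 : ℤ) (Nat.succ_ne_zero m)).trans h1
        exact (Int.dvd_add_left (Dvd.intro _ rfl)).1 h3
      refine ⟨h2, ?_⟩
      obtain ⟨u, hu⟩ := h2
      rw [hu, ← mul_add, pow_succ'] at h1
      have h4 := (mul_dvd_mul_iff_left (by norm_num : (3 : ℤ) ≠ 0)).1 h1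
      rw [hu, Int.mul_ediv_cancel_left _ (by norm_num)]
      have e4 : ρ * ((p.1 / 3 : ℕ) : ℤ) + (u + 3 ^ w * (κ * c.1)) - ((p.2 / 3 : ℕ) : ℤ) =
          u + (3 ^ w * (κ * c.1) + (ρ * ((p.1 / 3 : ℕ) : ℤ) - ((p.2 / 3 : ℕ) : ℤ))) := by ring
      rw [e4]
      exact h4
    by_cases hne : (3 : ℤ) ∣ τ - (c.2 - ε * c.1)
    · rw [if_pos hne]
      refine Finset.card_le_card_of_injOn (fun p => (p.1 / 3, p.2 / 3)) ?_ ?_
      · intro p hp
        obtain ⟨hp1, hp2⟩ := Finset.mem_filter.1 (Finset.mem_coe.1 hp)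
        have h1 := (Finset.mem_filter.1 hp1).1
        rw [Finset.mem_product] at h1
        rw [Finset.mem_coe, Finset.mem_filter, Finset.mem_product]
        exact ⟨⟨(CS_mod_div h1.1).2, (CS_mod_div h1.2).2⟩, (hdv p hp1 hp2).2⟩
      · intro p hp r hr hpr
        have hp2 := (Finset.mem_filter.1 (Finset.mem_coe.1 hp)).2
        have hr2 := (Finset.mem_filter.1 (Finset.mem_coe.1 hr)).2
        have h1 := hp2.trans hr2.symm
        simp only [Prod.mk.injEq] at h1 hpr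
        refine Prod.ext ?_ ?_
        · rw [← Nat.div_add_mod p.1 3, ← Nat.div_add_mod r.1 3, hpr.1, h1.1]
        · rw [← Nat.div_add_mod p.2 3, ← Nat.div_add_mod r.2 3, hpr.2, h1.2]
    · rw [if_neg hne, Nat.le_zero, Finset.card_eq_zero, Finset.filter_eq_empty_iff]
      intro p hp hpc
      exact hne (hdv p hp hpc).1
  · intro p hp
    have h1 := (Finset.mem_filter.1 (Finset.mem_coe.1 hp)).1
    rw [Finset.mem_product] at h1
    rw [Finset.mem_coe, Finset.mem_product]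
    exact ⟨(CS_mod_div h1.1).1, (CS_mod_div h1.2).1⟩

/-- **pairs with a given ratio close to `1` or `-1`** -/
theorem cnt_le {D : Finset ℕ} (hD : D ⊆ range 3) (hD2 : D.card = 2) {ψ : ℝ} (h1 : 1 ≤ ψ)
    (hψ : ψ + 1 ≤ ψ ^ 2) {ε κ : ℤ} (hε : ε = 1 ∨ ε = -1) (hκ : ¬ (3 : ℤ) ∣ κ) {v : ℕ} (hv : 1 ≤ v)
    (m : ℕ) (τ : ℤ) : (cnt D (ε + 3 ^ v * κ) m τ : ℝ) ≤ ψ ^ (m + v) := by
  obtain ⟨w, rfl⟩ : ∃ w, v = w + 1 := ⟨v - 1, by omega⟩
  obtain ⟨a, b, hab, rfl⟩ := Finset.card_eq_two.1 hD2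
  have ha : a < 3 := Finset.mem_range.1 (hD (Finset.mem_insert_self _ _))
  have hb : b < 3 := Finset.mem_range.1 (hD (Finset.mem_insert_of_mem (Finset.mem_singleton_self _)))
  have hnd : ∀ x y : ℤ, x - y = 1 ∨ x - y = -1 ∨ x - y = 2 ∨ x - y = -2 ∨ x - y = 4 ∨ x - y = -4 →
      ¬ (3 : ℤ) ∣ κ * x - κ * y := by
    intro x y hxy h
    rw [← mul_sub] at h
    rcases Int.Prime.dvd_mul' (p := 3) (by norm_num) h with h | h
    · exact hκ h
    · have h' : (3 : ℤ) ∣ x - y := h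
      rcases hxy with e | e | e | e | e | e <;> rw [e] at h' <;> norm_num at h'
  have h0 : ∀ τ : ℤ, (cnt {a, b} (ε + 3 ^ (w + 1) * κ) 0 τ : ℝ) ≤ 1 := by
    intro τ
    have : cnt {a, b} (ε + 3 ^ (w + 1) * κ) 0 τ ≤ 1 := by
      unfold cnt
      refine (Finset.card_filter_le _ _).trans ?_
      rw [Finset.card_product]
      have := card_CS 3 (by norm_num) {a, b} 0
      simp only [pow_zero] at this
      nlinarith
    exact_mod_cast this
  have hcab : κ * (a : ℤ) - κ * (b : ℤ) = κ * (a : ℤ) - κ * (b : ℤ) := rfl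
  have hab' : (a : ℤ) - b = 1 ∨ (a : ℤ) - b = -1 ∨ (a : ℤ) - b = 2 ∨ (a : ℤ) - b = -2 := by
    omega
  have hk := hnd a b (by omega)
  rcases hε with rfl | rfl
  · have key := fibtree (f := 0) (w₁ := (b : ℤ) - a) (w₂ := (a : ℤ) - b) h1 hψ w κ a b a b hk
      (by omega) (by omega) (by omega)
      (fun m τ => (cnt {a, b} (1 + 3 ^ (w + 1) * κ) m τ : ℝ)) h0 ?_ ?_ ?_ m τ
    · refine key.trans (pow_le_pow_right₀ h1 ?_)
      have := Z_le (f := 0) (w₁ := (b : ℤ) - a) (w₂ := (a : ℤ) - b) (w + 1) τ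
      omega
    · intro m τ hτ
      have h := cnt_succ {a, b} 1 κ w m τ
      rw [Finset.sum_pair hab, Finset.sum_pair hab, Finset.sum_pair hab,
        if_pos (by omega), if_neg (by omega), if_neg (by omega), if_pos (by omega)] at h
      have e1 : τ - ((a : ℤ) - 1 * a) = τ - 0 := by ring
      have e2 : τ - ((b : ℤ) - 1 * b) = τ - 0 := by ring
      rw [e1, e2, add_zero, zero_add] at h
      exact_mod_cast h
    · intro m τ hτ
      have h := cnt_succ {a, b} 1 κ w m τ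
      rw [Finset.sum_pair hab, Finset.sum_pair hab, Finset.sum_pair hab,
        if_neg (by omega), if_pos (by omega), if_neg (by omega), if_neg (by omega)] at h
      rw [one_mul, add_zero, zero_add, add_zero] at h
      exact_mod_cast h
    · intro m τ hτ
      have h := cnt_succ {a, b} 1 κ w m τ
      rw [Finset.sum_pair hab, Finset.sum_pair hab, Finset.sum_pair hab,
        if_neg (by omega), if_neg (by omega), if_pos (by omega), if_neg (by omega)] at h
      rw [one_mul, add_zero, add_zero, zero_add] at h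
      exact_mod_cast h
  · have key := fibtree (f := (a : ℤ) + b) (w₁ := (a : ℤ) + a) (w₂ := (b : ℤ) + b) h1 hψ w κ a b a b
      hk (by omega) (by omega) (by omega)
      (fun m τ => (cnt {a, b} (-1 + 3 ^ (w + 1) * κ) m τ : ℝ)) h0 ?_ ?_ ?_ m τ
    · refine key.trans (pow_le_pow_right₀ h1 ?_)
      have := Z_le (f := (a : ℤ) + b) (w₁ := (a : ℤ) + a) (w₂ := (b : ℤ) + b) (w + 1) τ
      omega
    · intro m τ hτ
      have h := cnt_succ {a, b} (-1) κ w m τ
      rw [Finset.sum_pair hab, Finset.sum_pair hab, Finset.sum_pair hab,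
        if_neg (by omega), if_pos (by omega), if_pos (by omega), if_neg (by omega)] at h
      have e1 : τ - ((b : ℤ) - -1 * a) = τ - (a + b) := by ring
      have e2 : τ - ((a : ℤ) - -1 * b) = τ - (a + b) := by ring
      rw [e1, e2, add_zero, zero_add] at h
      exact_mod_cast h
    · intro m τ hτ
      have h := cnt_succ {a, b} (-1) κ w m τ
      rw [Finset.sum_pair hab, Finset.sum_pair hab, Finset.sum_pair hab,
        if_pos (by omega), if_neg (by omega), if_neg (by omega), if_neg (by omega)] at h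
      have e1 : τ - ((a : ℤ) - -1 * a) = τ - (a + a) := by ring
      rw [e1, add_zero, add_zero, add_zero] at h
      exact_mod_cast h
    · intro m τ hτ
      have h := cnt_succ {a, b} (-1) κ w m τ
      rw [Finset.sum_pair hab, Finset.sum_pair hab, Finset.sum_pair hab,
        if_neg (by omega), if_neg (by omega), if_neg (by omega), if_pos (by omega)] at h
      have e1 : τ - ((b : ℤ) - -1 * b) = τ - (b + b) := by ring
      rw [e1, add_zero, zero_add, zero_add] at h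
      exact_mod_cast h

end Pool.Agent.Y950.NK
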