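import Pool.Agent.Y950.NK.Bd
import Pool.Agent.W288.NK.Lte

/-!
# The finite counting theorem for two ternary digits
-/

set_option autoImplicit false

namespace Pool.Agent.Y950.NK

open Finset Pool.Agent.W288.NK

/-- The sum over frequencies below `3 ^ h`. -/
theorem P_bound3 {D : Finset ℕ} (hD : D ⊆ range 3) (hD2 : D.card = 2) {k h0 d w : ℕ}
    (hh : h0 + d ≤ k) (h2 : (4 : ℝ) ^ k < 3 ^ (h0 + 1) * 3 ^ k) (h4 : k < 4 * (h0 + 1))
    (hw : Nat.Coprime w 3) (S : Finset ℕ) (X : ℕ → ℕ)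
    (hX : ∀ s ∈ S, X s % 3 ^ k ∈ CS 3 D k) (hXc : ∀ s, Nat.Coprime (X s) 3)
    (hinj : ∀ s ∈ S, ∀ s' ∈ S, X s % 3 ^ k = X s' % 3 ^ k → s = s')
    (mu : ℕ → ℕ) (hmu : ∀ s, ((mu s * (X s * w) : ℕ) : ZMod (3 ^ k)) = 1) :
    ∑ n ∈ Finset.Ico 1 ((3 : ℕ) ^ (h0 + d)), ∑ s ∈ S,
      ‖F (3 ^ k) (CS 3 D k) (-((n : ZMod (3 ^ k)) * ((mu s : ℕ) : ZMod (3 ^ k))))‖
      ≤ 13 * 3 ^ k * 3 ^ (h0 + d) * (49 / 50) ^ d := by
  classical
  set C := CS 3 D k with hC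
  let z : ℕ × ℕ → ZMod (3 ^ k) := fun a =>
    -((a.1 : ZMod (3 ^ k)) * ((mu a.2 : ℕ) : ZMod (3 ^ k)))
  set P : Finset (ℕ × ℕ) := Finset.Ico 1 (3 ^ (h0 + d)) ×ˢ S with hPdef
  have hsum : ∑ n ∈ Finset.Ico 1 ((3 : ℕ) ^ (h0 + d)), ∑ s ∈ S,
      ‖F (3 ^ k) C (-((n : ZMod (3 ^ k)) * ((mu s : ℕ) : ZMod (3 ^ k))))‖
      = ∑ a ∈ P, ‖F (3 ^ k) C (z a)‖ := by
    rw [hPdef, Finset.sum_product]
  rw [hsum]
  have hE : (((P ×ˢ P).filter fun ab => z ab.1 = z ab.2).card : ℝ) ≤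
      ((E0 D k (h0 + d)).card : ℝ) := by
    have : ((P ×ˢ P).filter fun ab => z ab.1 = z ab.2).card ≤ (E0 D k (h0 + d)).card := by
      refine Finset.card_le_card_of_injOn (fun ab => ((ab.1.1, X ab.1.2 % 3 ^ k),
        (ab.2.1, X ab.2.2 % 3 ^ k))) ?_ ?_
      · rintro ⟨a, b⟩ hab
        obtain ⟨h1, h3⟩ := Finset.mem_filter.1 (Finset.mem_coe.1 hab)
        rw [Finset.mem_product, hPdef, Finset.mem_product, Finset.mem_product, Finset.mem_Ico,
          Finset.mem_Ico] at h1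
        simp only at h1 h3
        obtain ⟨⟨⟨a1, a2⟩, a3⟩, ⟨⟨a4, a5⟩, a6⟩⟩ := h1
        have hk1 : 1 ≤ k := by
          by_contra hc
          have h0 : h0 + d = 0 := by omega
          rw [h0, pow_zero] at a2
          omega
        have h3k : 3 ∣ 3 ^ k := dvd_pow_self 3 (by omega)
        have hnd : ∀ s, ¬ 3 ∣ X s % 3 ^ k := by
          intro s
          rw [Nat.dvd_mod_iff h3k]
          exact (Nat.Prime.coprime_iff_not_dvd Nat.prime_three).1 (hXc s).symm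
        rw [Finset.mem_coe, mem_E0]
        refine ⟨⟨⟨⟨a1, a2⟩, hX _ a3⟩, ⟨⟨a4, a5⟩, hX _ a6⟩⟩, hnd _, hnd _, ?_⟩
        have h3' : (a.1 : ZMod (3 ^ k)) * ((mu a.2 : ℕ) : ZMod (3 ^ k))
            = (b.1 : ZMod (3 ^ k)) * ((mu b.2 : ℕ) : ZMod (3 ^ k)) := by
          apply neg_injective
          exact h3
        have hma := hmu a.2
        have hmb := hmu b.2
        push_cast at hma hmb
        have hwu : IsUnit (w : ZMod (3 ^ k)) := by
          rw [ZMod.isUnit_iff_coprime]; exact Nat.Coprime.pow_right k hw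
        have h5 : a.1 * X b.2 ≡ b.1 * X a.2 [MOD 3 ^ k] := by
          rw [← ZMod.natCast_eq_natCast_iff]
          push_cast
          apply hwu.mul_right_cancel
          -- multiply h3' by X_a w X_b w
          have h4 : (a.1 : ZMod (3 ^ k)) * ((X b.2 : ZMod (3 ^ k)) * w)
              = (b.1 : ZMod (3 ^ k)) * ((X a.2 : ZMod (3 ^ k)) * w) := by
            calc (a.1 : ZMod (3 ^ k)) * ((X b.2 : ZMod (3 ^ k)) * w)
                = (a.1 : ZMod (3 ^ k)) * ((X b.2 : ZMod (3 ^ k)) * w) *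
                  ((mu a.2 : ZMod (3 ^ k)) * ((X a.2 : ZMod (3 ^ k)) * w)) := by rw [hma, mul_one]
              _ = ((a.1 : ZMod (3 ^ k)) * (mu a.2 : ZMod (3 ^ k))) *
                  (((X b.2 : ZMod (3 ^ k)) * w) * ((X a.2 : ZMod (3 ^ k)) * w)) := by ring
              _ = ((b.1 : ZMod (3 ^ k)) * (mu b.2 : ZMod (3 ^ k))) *
                  (((X b.2 : ZMod (3 ^ k)) * w) * ((X a.2 : ZMod (3 ^ k)) * w)) := by rw [h3']
              _ = (b.1 : ZMod (3 ^ k)) * ((X a.2 : ZMod (3 ^ k)) * w) *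
                  ((mu b.2 : ZMod (3 ^ k)) * ((X b.2 : ZMod (3 ^ k)) * w)) := by ring
              _ = _ := by rw [hmb, mul_one]
          linear_combination h4
        have e1 : X b.2 % 3 ^ k ≡ X b.2 [MOD 3 ^ k] := Nat.mod_modEq _ _
        have e2 : X a.2 % 3 ^ k ≡ X a.2 [MOD 3 ^ k] := Nat.mod_modEq _ _
        exact ((e1.mul_left a.1).trans h5).trans (e2.mul_left b.1).symm
      · rintro ⟨a, b⟩ hab ⟨a', b'⟩ hab' heq
        have h1 := (Finset.mem_filter.1 (Finset.mem_coe.1 hab)).1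
        have h1' := (Finset.mem_filter.1 (Finset.mem_coe.1 hab')).1
        rw [Finset.mem_product, hPdef, Finset.mem_product, Finset.mem_product] at h1 h1'
        simp only [Prod.mk.injEq] at heq h1 h1'
        obtain ⟨⟨e1, e2⟩, ⟨e3, e4⟩⟩ := heq
        exact Prod.ext (Prod.ext e1 (hinj _ h1.1.2 _ h1'.1.2 e2))
          (Prod.ext e3 (hinj _ h1.2.2 _ h1'.2.2 e4))
    exact_mod_cast this
  have hb : ∀ r : ℕ, (C.filter (fun c => c % 3 ^ k = r)).card ≤ 1 := by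
    intro r
    rw [Finset.card_le_one]
    intro a ha b hb
    obtain ⟨h1, h2⟩ := Finset.mem_filter.mp ha
    obtain ⟨h3, h4⟩ := Finset.mem_filter.mp hb
    rw [hC, mem_CS] at h1 h3
    rw [Nat.mod_eq_of_lt h1.1] at h2
    rw [Nat.mod_eq_of_lt h3.1] at h4
    rw [h2, h4]
  have hB : ∑ ζ : ZMod (3 ^ k), ‖F (3 ^ k) C ζ‖ ^ 2 ≤ (6 : ℝ) ^ k := by
    refine (parseval (3 ^ k) C 1 hb).trans ?_
    have h5 : (C.card : ℝ) ≤ 2 ^ k := by exact_mod_cast card_CS2 hD2 k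
    have e : (6 : ℝ) ^ k = 3 ^ k * 2 ^ k := by rw [← mul_pow]; norm_num
    rw [e]
    push_cast
    rw [mul_one]
    exact mul_le_mul_of_nonneg_left h5 (by positivity)
  have hmain := sum_key (3 ^ k) P z (fun ζ => ‖F (3 ^ k) C ζ‖) (fun _ => norm_nonneg _) hE hB
  have hbd := E0_bd hD hD2 hh h2 h4
  have hsq : (∑ a ∈ P, ‖F (3 ^ k) C (z a)‖) ^ 2 ≤ (13 * 3 ^ k * 3 ^ (h0 + d) * (49 / 50) ^ d) ^ 2 := by
    refine (hmain.trans hbd).trans ?_
    have e1 : (13 * 3 ^ k * 3 ^ (h0 + d) * ((49 : ℝ) / 50) ^ d) ^ 2 =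
        169 * 9 ^ k * 9 ^ (h0 + d) * (2401 / 2500) ^ d := by
      have a1 : (9 : ℝ) ^ k = (3 ^ k) ^ 2 := by rw [← pow_mul, mul_comm, pow_mul]; norm_num
      have a2 : (9 : ℝ) ^ (h0 + d) = (3 ^ (h0 + d)) ^ 2 := by
        rw [← pow_mul, mul_comm, pow_mul]; norm_num
      have a3 : (2401 / 2500 : ℝ) ^ d = ((49 / 50) ^ d) ^ 2 := by
        rw [← pow_mul, mul_comm d 2, pow_mul]; norm_num
      rw [a1, a2, a3]
      ring
    rw [e1]
    have e2 : ((24 : ℝ) / 25) ^ d ≤ (2401 / 2500) ^ d :=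
      pow_le_pow_left₀ (by norm_num) (by norm_num) _
    have e3 : (160 : ℝ) * 9 ^ k * 9 ^ (h0 + d) ≤ 169 * 9 ^ k * 9 ^ (h0 + d) := by
      have : (0 : ℝ) ≤ 9 ^ k * 9 ^ (h0 + d) := by positivity
      nlinarith
    exact mul_le_mul e3 e2 (by positivity) (by positivity)
  exact (pow_le_pow_iff_left₀ (Finset.sum_nonneg fun _ _ => norm_nonneg _) (by positivity)
    two_ne_zero).mp hsq

set_option maxHeartbeats 4000000 in
theorem total_bound3 {D : Finset ℕ} (hD : D ⊆ range 3) (hD2 : D.card = 2)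
    (k h0 T R w : ℕ) (hh : h0 ≤ k) (h2 : (4 : ℝ) ^ k < 3 ^ (h0 + 1) * 3 ^ k)
    (h4 : k < 4 * (h0 + 1))
    (hw : Nat.Coprime w 3) (X : ℕ → ℕ) (hXc : ∀ s, Nat.Coprime (X s) 3)
    (hinj : ∀ s < T, ∀ s' < T, X s % 3 ^ k = X s' % 3 ^ k → s = s') :
    (∑ s ∈ Finset.range T, (((Finset.range R).filter (fun m => X s % 3 ^ k ∈ CS 3 D k ∧
        (X s / 3 ^ k + X s * w * m) % 3 ^ k ∈ CS 3 D k)).card : ℝ))
      ≤ (R : ℝ) / 3 ^ k * 4 ^ k + 3 ^ k * (26 * ((R : ℝ) / 3 ^ k) * 3 ^ h0 + 1950) := by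
  have hq : 0 < 3 := by norm_num
  set S := (Finset.range T).filter (fun s => X s % 3 ^ k ∈ CS 3 D k) with hS
  set C := CS 3 D k with hC
  have hlhs : (∑ s ∈ Finset.range T, (((Finset.range R).filter (fun m => X s % 3 ^ k ∈ C ∧
        (X s / 3 ^ k + X s * w * m) % 3 ^ k ∈ C)).card : ℝ))
      = ∑ s ∈ S, (((Finset.range R).filter (fun m =>
        (X s / 3 ^ k + X s * w * m) % 3 ^ k ∈ C)).card : ℝ) := by
    rw [hS, Finset.sum_filter]
    apply Finset.sum_congr rfl; intro s _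
    split_ifs with h
    · simp [h]
    · simp [h]
  rw [hlhs]
  have hmu : ∀ s, ∃ m : ℕ, ((m * (X s * w) : ℕ) : ZMod (3 ^ k)) = 1 := by
    intro s
    have h1 : Nat.Coprime (X s * w) (3 ^ k) := Nat.Coprime.pow_right k ((hXc s).mul_left hw)
    have h2 := ZMod.coe_mul_inv_eq_one (X s * w) h1
    refine ⟨((X s * w : ℕ) : ZMod (3 ^ k))⁻¹.val, ?_⟩
    rw [Nat.cast_mul, ZMod.natCast_zmod_val, mul_comm]
    exact h2
  choose mu hmu using hmu
  have hSX : ∀ s ∈ S, X s % 3 ^ k ∈ C := fun s hs => (Finset.mem_filter.mp hs).2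
  have hSinj : ∀ s ∈ S, ∀ s' ∈ S, X s % 3 ^ k = X s' % 3 ^ k → s = s' := by
    intro s hs s' hs' h
    exact hinj s (Finset.mem_range.mp (Finset.mem_filter.mp hs).1) s'
      (Finset.mem_range.mp (Finset.mem_filter.mp hs').1) h
  have hCcard : (C.card : ℝ) ≤ 2 ^ k := by exact_mod_cast card_CS2 hD2 k
  have hScard : (S.card : ℝ) ≤ 2 ^ k := by
    refine le_trans ?_ hCcard
    have : S.card ≤ C.card := by
      apply Finset.card_le_card_of_injOn (fun s => X s % 3 ^ k)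
      · intro s hs; exact hSX s hs
      · intro a ha b hb hab; exact hSinj a ha b hb hab
    exact_mod_cast this
  let A : ℕ → ℝ := fun n => ∑ s ∈ S,
    ‖F (3 ^ k) C (-((n : ZMod (3 ^ k)) * ((mu s : ℕ) : ZMod (3 ^ k))))‖
  have hA0 : ∀ n, 0 ≤ A n := fun n => Finset.sum_nonneg fun _ _ => norm_nonneg _
  have hAsym : ∀ n, n ≤ 3 ^ k → A (3 ^ k - n) = A n := by
    intro n hn
    apply Finset.sum_congr rfl; intro s _
    rw [← F_neg]
    congr 2
    have : ((3 ^ k - n : ℕ) : ZMod (3 ^ k)) = -(n : ZMod (3 ^ k)) := by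
      rw [Nat.cast_sub hn, ZMod.natCast_self, zero_sub]
    rw [this]; ring
  have hstep : ((3 ^ k : ℕ) : ℝ) * ∑ s ∈ S, (((Finset.range R).filter (fun m =>
        (X s / 3 ^ k + X s * w * m) % 3 ^ k ∈ C)).card : ℝ)
      ≤ ∑ y : ZMod (3 ^ k), ‖G (3 ^ k) R y‖ *
        ∑ s ∈ S, ‖F (3 ^ k) C (-(y * ((mu s : ℕ) : ZMod (3 ^ k))))‖ := by
    rw [Finset.mul_sum]
    simp_rw [Finset.mul_sum]
    rw [Finset.sum_comm]
    apply Finset.sum_le_sum; intro s _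
    apply count_bound (3 ^ k) C (fun c hc => ((mem_CS 3 D k c).mp hc).1) R (X s * w) (X s / 3 ^ k)
    have := hmu s
    rw [Nat.cast_mul] at this
    exact this
  rw [sum_zmod] at hstep
  have hQ1 : 1 ≤ 3 ^ k := Nat.one_le_pow _ _ hq
  have hQr : (0 : ℝ) < ((3 ^ k : ℕ) : ℝ) := by exact_mod_cast hQ1
  have hsplit : Finset.range (3 ^ k) = insert 0 (Finset.Ico 1 (3 ^ k)) := by
    ext x; simp only [Finset.mem_range, Finset.mem_insert, Finset.mem_Ico]; omega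
  rw [hsplit, Finset.sum_insert (by rw [Finset.mem_Ico]; omega)] at hstep
  have h0b : ‖G (3 ^ k) R ((0 : ℕ) : ZMod (3 ^ k))‖ * A 0
      ≤ (R : ℝ) * (2 ^ k * 2 ^ k) := by
    apply mul_le_mul (G_le _ _ _) _ (hA0 0) (Nat.cast_nonneg _)
    calc A 0 ≤ ∑ s ∈ S, (2 : ℝ) ^ k :=
          Finset.sum_le_sum fun s _ => le_trans (F_le _ _ _) hCcard
      _ = (S.card : ℝ) * 2 ^ k := by rw [Finset.sum_const, nsmul_eq_mul]
      _ ≤ _ := mul_le_mul_of_nonneg_right hScard (by positivity)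
  have hw1 := weighted (3 ^ k) R A hA0 hAsym
  have hw2 := split_sum 3 (by norm_num) A hA0 (2 * R / ((3 ^ k : ℕ) : ℝ)) h0 k hh
  have hP : ∀ d, h0 + d ≤ k → ∑ n ∈ Finset.Ico 1 (3 ^ (h0 + d)), A n
      ≤ 13 * 3 ^ k * 3 ^ (h0 + d) * (49 / 50) ^ d :=
    fun d hdk => P_bound3 hD hD2 hdk h2 h4 hw S X hSX hXc hSinj mu hmu
  have hw3 : ∑ h ∈ Finset.Ico h0 k, (1 / ((3 : ℕ) : ℝ) ^ h) *
      ∑ n ∈ Finset.Ico 1 (3 ^ (h + 1)), A n ≤ 3 ^ k * 1950 := by
    rw [Finset.sum_Ico_eq_sum_range]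
    calc ∑ i ∈ Finset.range (k - h0), (1 / ((3 : ℕ) : ℝ) ^ (h0 + i)) *
          ∑ n ∈ Finset.Ico 1 (3 ^ (h0 + i + 1)), A n
        ≤ ∑ i ∈ Finset.range (k - h0), (39 * 3 ^ k) * ((49 : ℝ) / 50) ^ i := by
          apply Finset.sum_le_sum; intro i hi
          rw [Finset.mem_range] at hi
          have h5 := hP (i + 1) (by omega)
          rw [← add_assoc] at h5
          have h6 : (0 : ℝ) < 3 ^ (h0 + i) := by positivity
          calc (1 / ((3 : ℕ) : ℝ) ^ (h0 + i)) * ∑ n ∈ Finset.Ico 1 (3 ^ (h0 + i + 1)), A n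
              ≤ (1 / ((3 : ℕ) : ℝ) ^ (h0 + i)) *
                  (13 * 3 ^ k * 3 ^ (h0 + i + 1) * (49 / 50) ^ (i + 1)) := by
                apply mul_le_mul_of_nonneg_left h5
                positivity
            _ = (39 * 3 ^ k) * (49 / 50) ^ (i + 1) := by
                push_cast
                rw [pow_succ 3 (h0 + i)]
                field_simp
                ring
            _ ≤ (39 * 3 ^ k) * (49 / 50) ^ i := by
                apply mul_le_mul_of_nonneg_left _ (by positivity)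
                exact pow_le_pow_of_le_one (by norm_num) (by norm_num) (by omega)
      _ = (39 * 3 ^ k) * ∑ i ∈ Finset.range (k - h0), ((49 : ℝ) / 50) ^ i := by
          rw [Finset.mul_sum]
      _ ≤ (39 * 3 ^ k) * 50 := by
          apply mul_le_mul_of_nonneg_left _ (by positivity)
          have := geom_tail (49 / 50) (by norm_num) (by norm_num) 0 (k - h0)
          rw [← Finset.range_eq_Ico] at this
          refine this.trans (le_of_eq ?_)
          norm_num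
      _ = 3 ^ k * 1950 := by ring
  have hw4 : 2 * R / ((3 ^ k : ℕ) : ℝ) * ∑ n ∈ Finset.Ico 1 (3 ^ h0), A n
      ≤ 3 ^ k * (26 * ((R : ℝ) / 3 ^ k) * 3 ^ h0) := by
    have h1 := hP 0 (by omega)
    rw [add_zero] at h1
    calc 2 * R / ((3 ^ k : ℕ) : ℝ) * ∑ n ∈ Finset.Ico 1 (3 ^ h0), A n
        ≤ 2 * R / ((3 ^ k : ℕ) : ℝ) * (13 * 3 ^ k * 3 ^ h0 * (49 / 50) ^ 0) := by
          apply mul_le_mul_of_nonneg_left h1; positivity
      _ = _ := by push_cast; ring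
  have h3 : ((3 ^ k : ℕ) : ℝ) * ∑ s ∈ S, (((Finset.range R).filter (fun m =>
        (X s / 3 ^ k + X s * w * m) % 3 ^ k ∈ C)).card : ℝ)
      ≤ (R : ℝ) * (2 ^ k * 2 ^ k) + ((3 ^ k : ℕ) : ℝ) *
        (3 ^ k * (26 * ((R : ℝ) / 3 ^ k) * 3 ^ h0) + 3 ^ k * 1950) := by
    refine le_trans hstep (add_le_add h0b (le_trans hw1 ?_))
    apply mul_le_mul_of_nonneg_left _ hQr.le
    exact le_trans hw2 (add_le_add hw4 hw3)
  rw [← mul_le_mul_iff_right₀ hQr]
  refine le_trans h3 (le_of_eq ?_)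
  have e4 : (4 : ℝ) ^ k = 2 ^ k * 2 ^ k := by rw [← mul_pow]; norm_num
  rw [e4]
  push_cast
  have h3k : (3 : ℝ) ^ k ≠ 0 := by positivity
  field_simp

set_option maxHeartbeats 4000000 in
theorem count_N3 (p : ℕ) (hp : 2 ≤ p) (hpq : ¬ 3 ∣ p) {D : Finset ℕ} (hD : D ⊆ range 3)
    (hD2 : D.card = 2) :
    ∃ f : ℕ, ∀ u, Nat.Coprime u 3 → ∀ k, f ≤ k → ∀ N h0 : ℕ, h0 ≤ k →
      (4 : ℝ) ^ k < 3 ^ (h0 + 1) * 3 ^ k → k < 4 * (h0 + 1) →
      ((((Finset.range N).filter (fun n => good 3 D (k + k) (u * p ^ n))).card : ℕ) : ℝ)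
        ≤ (((N : ℝ) * 3 ^ f / 3 ^ k + 1) / 3 ^ k) * 4 ^ k
        + 3 ^ k * (26 * (((N : ℝ) * 3 ^ f / 3 ^ k + 1) / 3 ^ k) * 3 ^ h0 + 1950) := by
  have hq : Nat.Prime 3 := Nat.prime_three
  obtain ⟨f, t, hf1, ht1, hlte⟩ := lte 3 p hq (by norm_num) hp hpq
  refine ⟨f, ?_⟩
  intro u hu k hk N h0 hh0 hc1 hc2
  obtain ⟨⟨w, hwc, hw⟩, hper⟩ := hlte k hk
  set T := t * 3 ^ (k - f) with hT
  have hTpos : 0 < T := Nat.mul_pos (by omega) (pow_pos hq.pos _)
  have hpc : Nat.Coprime p 3 := Nat.Coprime.symm ((Nat.Prime.coprime_iff_not_dvd hq).mpr hpq)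
  have hXc : ∀ s, Nat.Coprime (u * p ^ s) 3 := fun s => hu.mul_left (hpc.pow_left s)
  have hinj0 : ∀ s s', s ≤ s' → s' < T → (u * p ^ s) % 3 ^ k = (u * p ^ s') % 3 ^ k → s = s' := by
    intro s s' hss hs' h
    have h1 : u * p ^ s ≡ u * p ^ s' [MOD 3 ^ k] := h
    have h2 : u * p ^ s * 1 ≡ u * p ^ s * p ^ (s' - s) [MOD 3 ^ k] := by
      rw [mul_one, mul_assoc, ← pow_add, Nat.add_sub_cancel' hss]; exact h1
    have h3 : Nat.gcd (3 ^ k) (u * p ^ s) = 1 :=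
      Nat.Coprime.symm (Nat.Coprime.pow_right k (hXc s))
    have h4 : (1 : ℕ) ≡ p ^ (s' - s) [MOD 3 ^ k] := Nat.ModEq.cancel_left_of_coprime h3 h2
    have h5 := hper _ h4.symm
    rcases Nat.eq_zero_or_pos (s' - s) with h6 | h6
    · omega
    · have := Nat.le_of_dvd h6 h5
      omega
  have hinj : ∀ s < T, ∀ s' < T, (u * p ^ s) % 3 ^ k = (u * p ^ s') % 3 ^ k → s = s' := by
    intro s hs s' hs' h
    rcases le_total s s' with h1 | h1
    · exact hinj0 s s' h1 hs' h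
    · exact (hinj0 s' s h1 hs h.symm).symm
  have htb := total_bound3 hD hD2 k h0 T (N / T + 1) w hh0 hc1 hc2 hwc
    (fun s => u * p ^ s) hXc hinj
  have hcount : (((Finset.range N).filter (fun n => good 3 D (k + k) (u * p ^ n))).card : ℕ)
      ≤ ∑ s ∈ Finset.range T, ((Finset.range (N / T + 1)).filter (fun m =>
        (u * p ^ s) % 3 ^ k ∈ CS 3 D k ∧
        ((u * p ^ s) / 3 ^ k + (u * p ^ s) * w * m) % 3 ^ k ∈ CS 3 D k)).card := by
    rw [Finset.card_eq_sum_card_fiberwise (f := fun n => n % T) (t := Finset.range T)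
      (fun n _ => Finset.mem_coe.mpr (Finset.mem_range.mpr (Nat.mod_lt _ hTpos)))]
    apply Finset.sum_le_sum; intro s _
    apply Finset.card_le_card_of_injOn (fun n => n / T)
    · intro n hn
      obtain ⟨h1, h2⟩ := Finset.mem_filter.mp (Finset.mem_coe.mp hn)
      obtain ⟨h3, h4⟩ := Finset.mem_filter.mp h1
      rw [Finset.mem_coe, Finset.mem_filter]
      refine ⟨?_, ?_⟩
      · rw [Finset.mem_range] at h3 ⊢
        have := Nat.div_le_div_right (c := T) h3.le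
        show n / T < N / T + 1
        omega
      · have h5 : u * p ^ n = u * p ^ s * (1 + 3 ^ k * w) ^ (n / T) := by
          rw [← hw, ← pow_mul, mul_assoc, ← pow_add]
          congr 2
          rw [← h2, Nat.mod_add_div]
        rw [h5] at h4
        exact good_split 3 hq.pos D k _ w _ h4
    · intro a ha b hb hab
      obtain ⟨_, h2⟩ := Finset.mem_filter.mp (Finset.mem_coe.mp ha)
      obtain ⟨_, h3⟩ := Finset.mem_filter.mp (Finset.mem_coe.mp hb)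
      simp only at hab h2 h3
      rw [← Nat.mod_add_div a T, ← Nat.mod_add_div b T, h2, h3, hab]
  have hcount' : ((((Finset.range N).filter (fun n => good 3 D (k + k) (u * p ^ n))).card : ℕ) : ℝ)
      ≤ ∑ s ∈ Finset.range T, (((Finset.range (N / T + 1)).filter (fun m =>
        (u * p ^ s) % 3 ^ k ∈ CS 3 D k ∧
        ((u * p ^ s) / 3 ^ k + (u * p ^ s) * w * m) % 3 ^ k ∈ CS 3 D k)).card : ℝ) := by
    exact_mod_cast hcount
  refine le_trans hcount' (le_trans htb ?_)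
  have hR : ((N / T + 1 : ℕ) : ℝ) ≤ (N : ℝ) * 3 ^ f / 3 ^ k + 1 := by
    push_cast
    have h1 : ((N / T : ℕ) : ℝ) ≤ (N : ℝ) / (T : ℝ) := Nat.cast_div_le
    have h2 : (N : ℝ) / (T : ℝ) ≤ (N : ℝ) * 3 ^ f / 3 ^ k := by
      rw [div_le_div_iff₀ (by exact_mod_cast hTpos) (by positivity)]
      have h3 : (3 : ℝ) ^ k ≤ 3 ^ f * (T : ℝ) := by
        have h4 : 3 ^ k ≤ 3 ^ f * T := by
          calc 3 ^ k = 3 ^ f * 3 ^ (k - f) := by rw [← pow_add]; congr 1; omega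
            _ ≤ 3 ^ f * (t * 3 ^ (k - f)) := by
                apply Nat.mul_le_mul_left
                exact Nat.le_mul_of_pos_left _ ht1
            _ = _ := by rw [hT]
        exact_mod_cast h4
      calc (N : ℝ) * 3 ^ k ≤ (N : ℝ) * (3 ^ f * (T : ℝ)) := by gcongr
        _ = _ := by ring
    linarith
  gcongr

end Pool.Agent.Y950.NK
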